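import Mathlib

/-!
Averages over independent residues.
-/

open Finset

namespace Pool.Agent.MP_c903c4_nt.X

theorem sum_crt {M p : ℕ} (hc : Nat.Coprime M p) (hM : 0 < M) (hp : 0 < p) (H : ℕ → ℕ → ℝ) :
    ∑ n ∈ range (M * p), H (n % M) (n % p) = ∑ a ∈ range M, ∑ r ∈ range p, H a r := by
  rw [← sum_product']
  refine sum_bij (fun n _ => (n % M, n % p)) (fun n _ => ?_) (fun n hn m hm h => ?_)
    (fun x hx => ?_) (fun n _ => rfl)
  · exact mem_product.2 ⟨mem_range.2 (Nat.mod_lt _ hM), mem_range.2 (Nat.mod_lt _ hp)⟩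
  · rw [Prod.mk.injEq] at h
    have h1 : n ≡ m [MOD M * p] := (Nat.modEq_and_modEq_iff_modEq_mul hc).1 h
    exact Nat.ModEq.eq_of_lt_of_lt h1 (mem_range.1 hn) (mem_range.1 hm)
  · obtain ⟨h1, h2⟩ := mem_product.1 hx
    refine ⟨Nat.chineseRemainder hc x.1 x.2,
      mem_range.2 (Nat.chineseRemainder_lt_mul hc _ _ hM.ne' hp.ne'), ?_⟩
    have h3 := (Nat.chineseRemainder hc x.1 x.2).2
    rw [Prod.ext_iff]
    exact ⟨Eq.trans h3.1 (Nat.mod_eq_of_lt (mem_range.1 h1)),
      Eq.trans h3.2 (Nat.mod_eq_of_lt (mem_range.1 h2))⟩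

theorem sum_prod {M : ℕ} (hM : 0 < M) (w : ℕ → ℝ) (hw : ∀ a, 0 ≤ w a) (g : ℕ → ℕ → ℕ → ℝ)
    (b : ℕ → ℝ) (S : Finset ℕ) (hS : ∀ p ∈ S, p.Prime ∧ Nat.Coprime M p)
    (hg : ∀ p ∈ S, ∀ a r, 0 ≤ g p a r)
    (hb : ∀ p ∈ S, ∀ a, ∑ r ∈ range p, g p a r ≤ p * b p) :
    ∑ n ∈ range (M * ∏ p ∈ S, p), w (n % M) * ∏ p ∈ S, g p (n % M) (n % p) ≤
      (∑ a ∈ range M, w a) * ∏ p ∈ S, (p * b p) := by
  induction S using Finset.induction_on with
  | empty =>
    simp only [prod_empty, mul_one]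
    exact le_of_eq (sum_congr rfl fun n hn => by rw [Nat.mod_eq_of_lt (mem_range.1 hn)])
  | insert q S hq ih =>
    have ih' := ih (fun p hp => hS p (mem_insert_of_mem hp)) (fun p hp => hg p (mem_insert_of_mem hp))
      (fun p hp => hb p (mem_insert_of_mem hp))
    obtain ⟨hqp, hqM⟩ := hS q (mem_insert_self _ _)
    set M' := M * ∏ p ∈ S, p with hM'
    have hM0 : 0 < M' := Nat.mul_pos hM (prod_pos fun p hp => (hS p (mem_insert_of_mem hp)).1.pos)
    have hc : Nat.Coprime M' q := Nat.Coprime.mul_left hqM (Nat.Coprime.prod_left fun p hp =>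
      (Nat.coprime_primes (hS p (mem_insert_of_mem hp)).1 hqp).2 fun h => hq (h ▸ hp))
    have e1 : M * ∏ p ∈ insert q S, p = M' * q := by rw [prod_insert hq, hM']; ring
    have e2 := sum_crt hc hM0 hqp.pos
      (fun a r => (w (a % M) * ∏ p ∈ S, g p (a % M) (a % p)) * g q (a % M) r)
    have e3 : ∀ n, w (n % M) * ∏ p ∈ insert q S, g p (n % M) (n % p) =
        (w (n % M' % M) * ∏ p ∈ S, g p (n % M' % M) (n % M' % p)) * g q (n % M' % M) (n % q) := by
      intro n
      rw [prod_insert hq, Nat.mod_mod_of_dvd n (Dvd.intro _ rfl : M ∣ M')]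
      have : ∏ p ∈ S, g p (n % M) (n % M' % p) = ∏ p ∈ S, g p (n % M) (n % p) :=
        prod_congr rfl fun p hp => by
          rw [Nat.mod_mod_of_dvd n (Dvd.dvd.mul_left (dvd_prod_of_mem _ hp) M)]
      rw [this]
      ring
    have hb0 : 0 ≤ (q : ℝ) * b q :=
      (sum_nonneg fun r _ => hg q (mem_insert_self _ _) 0 r).trans (hb q (mem_insert_self _ _) 0)
    rw [e1, sum_congr rfl fun n _ => e3 n, e2, prod_insert hq]
    calc _ ≤ ∑ a ∈ range M', (w (a % M) * ∏ p ∈ S, g p (a % M) (a % p)) * (q * b q) := by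
          refine sum_le_sum fun a _ => ?_
          rw [← mul_sum]
          exact mul_le_mul_of_nonneg_left (hb q (mem_insert_self _ _) _) (mul_nonneg (hw _)
            (prod_nonneg fun p hp => hg p (mem_insert_of_mem hp) _ _))
      _ ≤ _ := by
          rw [← sum_mul]
          exact (mul_le_mul_of_nonneg_right ih' hb0).trans (le_of_eq (by ring))

/-- A periodic set with few residues has few members below x. -/
theorem card_per {M : ℕ} (hM : 0 < M) (B : ℕ → Prop) [DecidablePred B]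
    (hB : ∀ n, B n → B (n % M)) (x : ℕ) :
    ((range x).filter B).card ≤ ((range M).filter B).card * (x / M + 1) := by
  rw [← card_range (x / M + 1), ← card_product]
  refine card_le_card_of_injOn (fun n => (n % M, n / M)) (fun n hn => ?_) fun n _ m _ h => ?_
  · obtain ⟨h1, h2⟩ := mem_filter.1 (mem_coe.1 hn)
    exact mem_coe.2 (mem_product.2 ⟨mem_filter.2 ⟨mem_range.2 (Nat.mod_lt _ hM), hB n h2⟩,
      mem_range.2 (Nat.lt_succ_of_le (Nat.div_le_div_right (mem_range.1 h1).le))⟩)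
  · rw [Prod.mk.injEq] at h
    rw [← Nat.div_add_mod n M, ← Nat.div_add_mod m M, h.1, h.2]

end Pool.Agent.MP_c903c4_nt.X
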