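import Mathlib.Data.Nat.Notation

/-!
A kernel friendly search for the primes whose orders of nine and twenty-five are smooth.
-/

namespace Pool.Agent.MP_c903c4_nt.X

/-- Modular power in radix 64. -/
def pm (b e m : ℕ) : ℕ :=
  cond (Nat.ble e 200) (Nat.mod (Nat.pow b e) m)
    (Nat.mod (Nat.mul (Nat.pow (Nat.mod (Nat.mul (Nat.pow (Nat.mod (Nat.mul (Nat.pow
      (Nat.mod (Nat.pow b (Nat.div e 262144)) m) 64)
      (Nat.pow b (Nat.mod (Nat.div e 4096) 64))) m) 64)
      (Nat.pow b (Nat.mod (Nat.div e 64) 64))) m) 64) (Nat.pow b (Nat.mod e 64))) m)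

/-- The test with a given exponent. -/
def tsD (D x : ℕ) : Bool := cond (Nat.beq (pm 9 D x) 1) (Nat.beq (pm 25 D x) 1) false

/-- The test for orders dividing V. -/
def ts (V x : ℕ) : Bool := tsD (Nat.gcd (Nat.sub x 1) V) x

/-- Membership in a list. -/
noncomputable def mem (x : ℕ) (L : List ℕ) : Bool :=
  List.rec false (fun y _ r => cond (Nat.beq x y) true r) L

/-- One candidate. -/
noncomputable def one (V : ℕ) (L : List ℕ) (x : ℕ) : Bool := cond (ts V x) (mem x L) true

/-- One block of sixty numbers. -/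
noncomputable def blk (V : ℕ) (L : List ℕ) (b : ℕ) : Bool :=
  one V L (Nat.add b 7) && (one V L (Nat.add b 11) && (one V L (Nat.add b 19) &&
    (one V L (Nat.add b 23) && (one V L (Nat.add b 31) && (one V L (Nat.add b 43) &&
    (one V L (Nat.add b 47) && one V L (Nat.add b 59)))))))

/-- A dyadic range of blocks. -/
noncomputable def tree (V : ℕ) (L : List ℕ) (k : ℕ) : ℕ → Bool :=
  Nat.rec (fun i => blk V L (Nat.mul 60 i))
    (fun _ r i => r (Nat.mul 2 i) && r (Nat.add (Nat.mul 2 i) 1)) k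

end Pool.Agent.MP_c903c4_nt.X
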