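import Mathlib
import Pool.Agent.MP_c903c4_nt.X.Chk

/-!
Correctness of the search.
-/

namespace Pool.Agent.MP_c903c4_nt.X

theorem pm_eq (b e m : ℕ) : pm b e m = b ^ e % m := by
  unfold pm
  cases h : Nat.ble e 200
  · simp only [cond_false]
    show (((((b ^ (e / 262144) % m) ^ 64 * b ^ (e / 4096 % 64)) % m) ^ 64 * b ^ (e / 64 % 64) % m) ^ 64
      * b ^ (e % 64)) % m = _
    have s : ∀ x y : ℕ, (b ^ x % m) ^ 64 * b ^ y % m = b ^ (64 * x + y) % m := by
      intro x y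
      rw [pow_add, mul_comm 64 x, pow_mul]
      exact Nat.ModEq.mul_right _ ((Nat.mod_modEq _ _).pow _)
    rw [s, s, s]
    congr 2
    omega
  · rfl

/-- The least common multiple of the orders of nine and twenty-five. -/
noncomputable def LL (p : ℕ) : ℕ := Nat.lcm (orderOf (9 : ZMod p)) (orderOf (25 : ZMod p))

theorem ord_iff {p : ℕ} (hp : 1 < p) (g D : ℕ) :
    g ^ D % p = 1 ↔ orderOf ((g : ℕ) : ZMod p) ∣ D := by
  rw [orderOf_dvd_iff_pow_eq_one, ← Nat.cast_pow, ← Nat.cast_one (R := ZMod p),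
    ZMod.natCast_eq_natCast_iff', Nat.mod_eq_of_lt hp]

theorem tsD_iff {p : ℕ} (hp : 1 < p) (D : ℕ) : tsD D p = true ↔ LL p ∣ D := by
  have h9 := ord_iff hp 9 D
  have h25 := ord_iff hp 25 D
  push_cast at h9 h25
  unfold tsD LL
  rw [Nat.lcm_dvd_iff, ← h9, ← h25, pm_eq, pm_eq]
  cases h : Nat.beq (9 ^ D % p) 1
  · have := Nat.ne_of_beq_eq_false h
    simp [this]
  · have := Nat.eq_of_beq_eq_true h
    simp [this]

theorem ne3 {p : ℕ} (h5 : 5 < p) : (3 : ZMod p) ≠ 0 ∧ (5 : ZMod p) ≠ 0 := by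
  constructor
  · intro h
    have h1 : ((3 : ℕ) : ZMod p) = 0 := by simpa using h
    rw [ZMod.natCast_eq_zero_iff] at h1
    have := Nat.le_of_dvd (by norm_num) h1
    omega
  · intro h
    have h1 : ((5 : ℕ) : ZMod p) = 0 := by simpa using h
    rw [ZMod.natCast_eq_zero_iff] at h1
    have := Nat.le_of_dvd (by norm_num) h1
    omega

theorem LL_two {p : ℕ} (hp : p.Prime) (h5 : 5 < p) : 2 * LL p ∣ p - 1 := by
  have := Fact.mk hp
  obtain ⟨h3, h5'⟩ := ne3 h5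
  have ho := hp.eq_two_or_odd
  obtain ⟨t, ht⟩ : ∃ t, p - 1 = 2 * t := ⟨(p - 1) / 2, by omega⟩
  rw [ht]
  refine Nat.mul_dvd_mul_left 2 (Nat.lcm_dvd ?_ ?_)
  · rw [orderOf_dvd_iff_pow_eq_one, show (9 : ZMod p) = 3 ^ 2 by norm_num, ← pow_mul, ← ht]
    exact ZMod.pow_card_sub_one_eq_one h3
  · rw [orderOf_dvd_iff_pow_eq_one, show (25 : ZMod p) = 5 ^ 2 by norm_num, ← pow_mul, ← ht]
    exact ZMod.pow_card_sub_one_eq_one h5'

theorem ts_iff {p : ℕ} (hp : p.Prime) (h5 : 5 < p) (V : ℕ) : ts V p = true ↔ LL p ∣ V := by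
  unfold ts
  rw [tsD_iff hp.one_lt]
  show LL p ∣ Nat.gcd (p - 1) V ↔ _
  rw [Nat.dvd_gcd_iff]
  exact ⟨fun h => h.2, fun h => ⟨(Dvd.intro_left 2 rfl).trans (LL_two hp h5), h⟩⟩

theorem mem_ok {x : ℕ} {L : List ℕ} (h : mem x L = true) : x ∈ L := by
  induction L with
  | nil => exact absurd h (by simp [mem])
  | cons y L ih =>
    change cond (Nat.beq x y) true (mem x L) = true at h
    cases h' : Nat.beq x y
    · rw [h'] at h
      exact List.mem_cons_of_mem _ (ih h)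
    · rw [Nat.eq_of_beq_eq_true h']
      exact List.mem_cons_self

theorem one_ok {V x : ℕ} {L : List ℕ} (h : one V L x = true) (ht : ts V x = true) : x ∈ L := by
  unfold one at h
  rw [ht] at h
  exact mem_ok h

theorem blk_ok {V i x : ℕ} {L : List ℕ} (h : blk V L (Nat.mul 60 i) = true) (hx : x / 60 = i)
    (h4 : x % 4 = 3) (h3 : x % 3 ≠ 0) (h5 : x % 5 ≠ 0) (ht : ts V x = true) : x ∈ L := by
  unfold blk at h
  simp only [Bool.and_eq_true, Nat.add_eq, Nat.mul_eq] at h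
  obtain ⟨a1, a2, a3, a4, a5, a6, a7, a8⟩ := h
  have : x = 60 * i + 7 ∨ x = 60 * i + 11 ∨ x = 60 * i + 19 ∨ x = 60 * i + 23 ∨ x = 60 * i + 31 ∨
      x = 60 * i + 43 ∨ x = 60 * i + 47 ∨ x = 60 * i + 59 := by
    have e : x = 60 * i + x % 60 := by omega
    have b4 : x % 60 % 4 = 3 := by omega
    have b3 : x % 60 % 3 ≠ 0 := by omega
    have b5 : x % 60 % 5 ≠ 0 := by omega
    have b : x % 60 < 60 := by omega
    generalize x % 60 = r at e b4 b3 b5 b
    interval_cases r <;> simp_all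
  rcases this with e | e | e | e | e | e | e | e <;> rw [e] at ht ⊢
  exacts [one_ok a1 ht, one_ok a2 ht, one_ok a3 ht, one_ok a4 ht, one_ok a5 ht, one_ok a6 ht,
    one_ok a7 ht, one_ok a8 ht]

theorem tree_ok {V x : ℕ} {L : List ℕ} (h4 : x % 4 = 3) (h3 : x % 3 ≠ 0) (h5 : x % 5 ≠ 0)
    (ht : ts V x = true) (k : ℕ) : ∀ i : ℕ, tree V L k i = true → x / 60 / 2 ^ k = i → x ∈ L := by
  induction k with
  | zero => exact fun i h hx => blk_ok h (by simpa using hx) h4 h3 h5 ht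
  | succ k ih =>
    intro i h hx
    change (tree V L k (Nat.mul 2 i) && tree V L k (Nat.add (Nat.mul 2 i) 1)) = true at h
    simp only [Bool.and_eq_true, Nat.add_eq, Nat.mul_eq] at h
    rw [pow_succ, ← Nat.div_div_eq_div_mul] at hx
    by_cases he : x / 60 / 2 ^ k = 2 * i
    · exact ih _ h.1 he
    · exact ih _ h.2 (by omega)

end Pool.Agent.MP_c903c4_nt.X
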