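import Pool.Agent.MP_c903c4_nt.X.Grid
import Pool.Agent.MP_c903c4_nt.X.Av

/-!
Avoiding the primes stage by stage.
-/

open Finset
open scoped Classical

noncomputable section

namespace Pool.Agent.MP_c903c4_nt.X

/-- All prime factors are at most y. -/
def Sm (y m : ℕ) : Prop := ∀ r : ℕ, r.Prime → r ∣ m → r ≤ y

/-- The primes to avoid. -/
def P3 (p : ℕ) : Prop := p.Prime ∧ p % 4 = 3 ∧ 5 < p

/-- The primes handled up to stage y. -/
def DD (q y : ℕ) : Finset ℕ := (range (q + 3)).filter fun p => P3 p ∧ Sm y (LL p)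

/-- The modulus at stage y. -/
def MM (q y : ℕ) : ℕ := 96 * ∏ p ∈ DD q y, p

/-- The conditions at two and three. -/
def G2 (m : ℤ) : Prop := (m % 4 = 1 ∨ m % 8 = 2 ∨ m % 16 = 4 ∨ m % 32 = 8) ∧ m % 3 ≠ 0

/-- The conditions at stage y for given exponents. -/
def Cd (q y n c d : ℕ) : Prop :=
  8 * (q + 2) ≤ c ∧ 8 * (q + 2) ≤ d ∧ G2 (mm n c d) ∧ ∀ p ∈ DD q y, ¬ (p : ℤ) ∣ mm n c d

/-- Success at stage y. -/
def Good (q y n : ℕ) : Prop := ∃ c d : ℕ, Cd q y n c d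

/-- The primes of stage l. -/
def Cl (l p : ℕ) : Prop := P3 p ∧ l ∣ LL p ∧ Sm l (LL p)

/-- The bound for the loss at stage l. -/
def St (l : ℕ) (φ : ℝ) : Prop :=
  ∃ (E : ℕ) (τ : ℝ) (e : ℕ → ℕ), 1 ≤ τ ∧ (∀ p, Cl l p → e p ≤ E ∧ l ^ e p ∣ LL p) ∧
    ∀ S : Finset ℕ, (∀ p ∈ S, Cl l p) →
      ∏ p ∈ S, (1 + (τ ^ l ^ (E - e p) - 1) * ((l : ℝ) ^ e p / p)) ≤ φ * τ ^ l ^ E

theorem G2.congr {m m' : ℤ} (h : G2 m) (hd : (96 : ℤ) ∣ m' - m) : G2 m' := by
  unfold G2 at *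
  omega

theorem MM_pos (q y : ℕ) : 0 < MM q y :=
  Nat.mul_pos (by norm_num) (prod_pos fun _ hp => (mem_filter.1 hp).2.1.1.pos)

theorem Cd.congr {q y n c d n' c' d' : ℕ} (h : Cd q y n c d) (hc : c ≤ c') (hd : d ≤ d')
    (h96 : (96 : ℤ) ∣ mm n' c' d' - mm n c d)
    (hp : ∀ p ∈ DD q y, (p : ℤ) ∣ mm n' c' d' - mm n c d) : Cd q y n' c' d' :=
  ⟨h.1.trans hc, h.2.1.trans hd, h.2.2.1.congr h96, fun p hp' hh => h.2.2.2 p hp' (by
    have := dvd_sub hh (hp p hp')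
    rwa [sub_sub_cancel] at this)⟩

theorem Cd.modEq {q y n n' c d : ℕ} (h : Cd q y n c d) (hn : n ≡ n' [MOD MM q y]) :
    Cd q y n' c d := by
  have e : mm n' c d - mm n c d = (n' : ℤ) - n := by unfold mm; ring
  have h1 := Nat.modEq_iff_dvd.1 hn
  refine h.congr le_rfl le_rfl ?_ fun p hp => ?_
  · rw [e]
    refine Dvd.dvd.trans ?_ h1
    exact_mod_cast Int.natCast_dvd_natCast.2 (Dvd.intro _ rfl : 96 ∣ MM q y)
  · rw [e]
    exact (Int.natCast_dvd_natCast.2 (Dvd.dvd.mul_left (dvd_prod_of_mem _ hp) 96)).trans h1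

theorem Good.modEq {q y n n' : ℕ} (h : Good q y n) (hn : n ≡ n' [MOD MM q y]) : Good q y n' := by
  obtain ⟨c, d, h⟩ := h
  exact ⟨c, d, h.modEq hn⟩

theorem sm_dvd {y m k : ℕ} (hm : 0 < m) (hk : m ≤ k) (h : Sm y m) : m ∣ y.factorial ^ k := by
  refine (Nat.dvd_iff_prime_pow_dvd_dvd _ _).2 fun r j hr hj => ?_
  rcases Nat.eq_zero_or_pos j with rfl | hj0
  · simp
  · have h1 : r ∣ y.factorial :=
      Nat.dvd_factorial hr.pos (h r hr ((dvd_pow_self r hj0.ne').trans hj))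
    have h2 : j < r ^ j := Nat.lt_pow_self hr.one_lt
    have h3 := Nat.le_of_dvd hm hj
    exact (pow_dvd_pow_of_dvd h1 j).trans (pow_dvd_pow _ (by omega))

theorem LL_odd {p : ℕ} (hp : P3 p) : ¬ 2 ∣ LL p := by
  rintro ⟨t, ht⟩
  obtain ⟨u, hu⟩ := LL_two hp.1 hp.2.2
  have := hp.2.1
  have h1 : p - 1 = 4 * (t * u) := by rw [hu, ht]; ring
  omega

theorem pow_LL {p : ℕ} : (3 : ZMod p) ^ (2 * LL p) = 1 ∧ (5 : ZMod p) ^ (2 * LL p) = 1 := by
  constructor
  · rw [pow_mul, show (3 : ZMod p) ^ 2 = 9 by norm_num, ← orderOf_dvd_iff_pow_eq_one]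
    exact Nat.dvd_lcm_left _ _
  · rw [pow_mul, show (5 : ZMod p) ^ 2 = 25 by norm_num, ← orderOf_dvd_iff_pow_eq_one]
    exact Nat.dvd_lcm_right _ _

theorem LL_ne_one {p : ℕ} (hp : P3 p) : LL p ≠ 1 := by
  intro h
  have h1 := (pow_LL (p := p)).1
  rw [h] at h1
  have h2 : ((8 : ℕ) : ZMod p) = 0 := by
    push_cast
    linear_combination h1
  rw [ZMod.natCast_eq_zero_iff] at h2
  have h3 := Nat.le_of_dvd (by norm_num) h2
  obtain ⟨-, h4, h5⟩ := hp
  have : p = 7 := by omega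
  subst this
  norm_num at h2

theorem shift {q y n c d : ℕ} (hy : 2 ≤ y) (h : Cd q y n c d) (s t : ℕ) :
    Cd q y n (c + y.factorial ^ (8 * (q + 2)) * s) (d + y.factorial ^ (8 * (q + 2)) * t) := by
  set U := y.factorial ^ (8 * (q + 2)) with hU
  have e : mm n (c + U * s) (d + U * t) - mm n c d =
      -(3 ^ c * (3 ^ (U * s) - 1) + 5 ^ d * (5 ^ (U * t) - 1)) := by unfold mm; ring
  refine h.congr (by omega) (by omega) ?_ fun p hp => ?_
  · obtain ⟨u, hu⟩ : 8 ∣ U := by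
      have h1 : 2 ∣ y.factorial := Nat.dvd_factorial (by norm_num) hy
      exact ((pow_dvd_pow 2 (by omega : 3 ≤ 8 * (q + 2))).trans (pow_dvd_pow_of_dvd h1 _) : 2 ^ 3 ∣ U)
    rw [e, dvd_neg, hu, mul_assoc, mul_assoc]
    have h3 := sub_dvd_pow_sub_pow ((3 : ℤ) ^ 8) 1 (u * s)
    have h5 := sub_dvd_pow_sub_pow ((5 : ℤ) ^ 8) 1 (u * t)
    rw [one_pow, ← pow_mul] at h3 h5
    refine dvd_add ?_ (Dvd.dvd.mul_left (Dvd.dvd.trans (by norm_num : (96 : ℤ) ∣ _) h5) _)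
    have h6 : (3 : ℤ) ∣ 3 ^ c := dvd_pow_self 3 (by have := h.1; omega)
    exact (mul_dvd_mul h6 (Dvd.dvd.trans (by norm_num : (32 : ℤ) ∣ _) h3) : (3 * 32 : ℤ) ∣ _)
  · obtain ⟨h1, h2, h3⟩ := mem_filter.1 hp
    have h4 := Nat.le_of_dvd (by have := h2.2.2; omega) (LL_two h2.1 h2.2.2)
    have h5 := LL_pos h2.1 h2.2.2
    obtain ⟨u, hu⟩ : 2 * LL p ∣ U := by
      refine sm_dvd (by omega) (by have := mem_range.1 h1; omega) fun r hr hd => ?_
      rcases (Nat.Prime.dvd_mul hr).1 hd with h6 | h6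
      · exact (Nat.le_of_dvd two_pos h6).trans hy
      · exact h3 r hr h6
    rw [e, ← ZMod.intCast_zmod_eq_zero_iff_dvd, hu, mul_assoc _ u, mul_assoc _ u]
    push_cast
    rw [pow_mul _ (2 * LL p), pow_mul _ (2 * LL p), pow_LL.1, pow_LL.2]
    simp

theorem base_dec : ∀ n : Fin 96, ∃ i j : Fin 8,
    (let m : ℤ := (n : ℕ) - 3 ^ (i : ℕ) - 5 ^ (j : ℕ)
     (m % 4 = 1 ∨ m % 8 = 2 ∨ m % 16 = 4 ∨ m % 32 = 8)) ∧
      (((n : ℕ) : ℤ) - 5 ^ (j : ℕ)) % 3 ≠ 0 := by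
  decide +kernel

theorem base (q n : ℕ) : Good q 2 n := by
  obtain ⟨i, j, h1, h2⟩ := base_dec ⟨n % 96, Nat.mod_lt _ (by norm_num)⟩
  refine ⟨8 * (q + 2) + i, 8 * (q + 2) + j, by omega, by omega, ?_, fun p hp => ?_⟩
  · have h3 := sub_dvd_pow_sub_pow ((3 : ℤ) ^ 8) 1 (q + 2)
    have h5 := sub_dvd_pow_sub_pow ((5 : ℤ) ^ 8) 1 (q + 2)
    rw [one_pow, ← pow_mul] at h3 h5
    obtain ⟨a, ha⟩ := (Dvd.dvd.trans (by norm_num : (32 : ℤ) ∣ _) h3).mul_right (3 ^ (i : ℕ))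
    obtain ⟨b, hb⟩ := (Dvd.dvd.trans (by norm_num : (96 : ℤ) ∣ _) h5).mul_right (5 ^ (j : ℕ))
    obtain ⟨z, hz⟩ : (3 : ℤ) ∣ 3 ^ (8 * (q + 2) + i) := dvd_pow_self 3 (by omega)
    rw [sub_mul, one_mul, ← pow_add] at ha hb
    unfold G2 mm
    simp only at h1 h2
    generalize (3 : ℤ) ^ (8 * (q + 2) + i) = X at ha hz
    generalize (5 : ℤ) ^ (8 * (q + 2) + j) = Y at hb
    generalize (3 : ℤ) ^ (i : ℕ) = X' at ha h1
    generalize (5 : ℤ) ^ (j : ℕ) = Y' at hb h1 h2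
    refine ⟨?_, by omega⟩
    rcases h1 with h1 | h1 | h1 | h1
    · exact Or.inl (by omega)
    · exact Or.inr (Or.inl (by omega))
    · exact Or.inr (Or.inr (Or.inl (by omega)))
    · exact Or.inr (Or.inr (Or.inr (by omega)))
  · obtain ⟨-, h3, h4⟩ := mem_filter.1 hp
    obtain ⟨r, hr, hd⟩ := Nat.exists_prime_and_dvd (LL_ne_one h3)
    have h5 := h4 r hr hd
    have h6 := hr.two_le
    exact absurd (by rwa [show r = 2 by omega] at hd) (LL_odd h3)

/-- The number of failing residues at stage y. -/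
def BB (q y : ℕ) : ℝ := ∑ a ∈ range (MM q y), if Good q y a then 0 else 1

theorem step {q y : ℕ} (hy : 2 ≤ y) (hl : (y + 1).Prime) {φ : ℝ} (hS : St (y + 1) φ) :
    BB q (y + 1) / MM q (y + 1) ≤ BB q y / MM q y + φ := by
  obtain ⟨E, τ, e, hτ, he, hφ⟩ := hS
  set l := y + 1 with hly
  set S := DD q l \ DD q y with hSd
  have hsub : DD q y ⊆ DD q l := fun p hp => by
    obtain ⟨h1, h2, h3⟩ := mem_filter.1 hp
    exact mem_filter.2 ⟨h1, h2, fun r hr hd => (h3 r hr hd).trans (by omega)⟩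
  have hCl : ∀ p ∈ S, Cl l p := fun p hp => by
    obtain ⟨h0, h4⟩ := mem_sdiff.1 hp
    obtain ⟨h1, h2, h3⟩ := mem_filter.1 h0
    refine ⟨h2, ?_, h3⟩
    by_contra hn
    refine h4 (mem_filter.2 ⟨h1, h2, fun r hr hd => ?_⟩)
    have h5 := h3 r hr hd
    have : r ≠ l := fun h => hn (h ▸ hd)
    omega
  set M := MM q y with hM
  have hM0 : 0 < M := MM_pos q y
  have hMM : MM q l = M * ∏ p ∈ S, p := by
    rw [hM]
    unfold MM
    rw [← prod_sdiff hsub]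
    ring
  have hSp : ∀ p ∈ S, p.Prime ∧ Nat.Coprime M p := fun p hp => by
    obtain ⟨h1, h2, h3⟩ := (hCl p hp).1
    refine ⟨h1, Nat.Coprime.mul_left ?_ (Nat.Coprime.prod_left fun r hr =>
      (Nat.coprime_primes (mem_filter.1 hr).2.1.1 h1).2 fun h => (mem_sdiff.1 hp).2 (h ▸ hr))⟩
    refine ((Nat.Prime.coprime_iff_not_dvd h1).2 fun h => ?_).symm
    rcases (Nat.Prime.dvd_mul h1).1 (show p ∣ 3 * 2 ^ 5 from h) with h4 | h4
    · have := Nat.le_of_dvd (by norm_num) h4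
      omega
    · have := Nat.le_of_dvd (by norm_num) (h1.dvd_of_dvd_pow h4)
      omega
  have hch : ∀ a, ∃ c d, Good q y a → Cd q y a c d := fun a => by
    by_cases h : Good q y a
    · obtain ⟨c, d, h⟩ := h
      exact ⟨c, d, fun _ => h⟩
    · exact ⟨0, 0, fun h' => absurd h' h⟩
  choose c d hcd using hch
  set U := y.factorial ^ (8 * (q + 2)) with hU
  have hUl : Nat.Coprime l U := Nat.Coprime.pow_right _
    ((Nat.Prime.coprime_iff_not_dvd hl).2 fun h => by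
      have := (Nat.Prime.dvd_factorial hl).1 h
      omega)
  set N := l ^ E with hN
  have hN0 : 0 < N := pow_pos hl.pos _
  set W : ℕ → ℕ := fun p => l ^ (E - e p) with hW
  have hW0 : ∀ p, 0 < W p := fun p => pow_pos hl.pos _
  have hNW : ∀ p ∈ S, N = l ^ e p * W p := fun p hp => by
    rw [hN, hW, ← pow_add, Nat.add_sub_cancel' (he p (hCl p hp)).1]
  set g : ℕ → ℕ → ℕ → ℝ := fun p a r =>
    1 + (τ ^ W p - 1) * (KK p N U (c a) (d a) r / (W p * N)) with hg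
  have hτW : ∀ p, 0 ≤ τ ^ W p - 1 := fun p => sub_nonneg.2 (one_le_pow₀ hτ)
  have hg0 : ∀ p ∈ S, ∀ a r, 0 ≤ g p a r := fun p _ a r => by
    have := hτW p
    simp only [hg]
    positivity
  have hτN : 0 < τ ^ N := by positivity
  have s1 := sum_prod hM0 (fun a => if Good q y a then 0 else 1)
    (fun a => by split_ifs <;> norm_num) (fun _ _ _ => 1) (fun _ => 1) S hSp
    (fun _ _ _ _ => zero_le_one) (fun p _ _ => by simp)
  have s2 := sum_prod hM0 (fun _ => 1 / τ ^ N) (fun _ => by positivity) g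
    (fun p => 1 + (τ ^ W p - 1) * ((l : ℝ) ^ e p / p)) S hSp hg0 (fun p hp a => by
      have h1 : ((∑ r ∈ range p, KK p N U (c a) (d a) r : ℕ) : ℝ) ≤ (N * N : ℕ) := by
        exact_mod_cast KK_sum p N U (c a) (d a)
      have h2 : (N : ℝ) = (l : ℝ) ^ e p * W p := by exact_mod_cast hNW p hp
      have h3 : (0 : ℝ) < W p := by exact_mod_cast hW0 p
      have h4 : (0 : ℝ) < N := by exact_mod_cast hN0
      have h5 : (0 : ℝ) < p := by exact_mod_cast (hSp p hp).1.pos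
      simp only [hg]
      rw [sum_add_distrib, ← mul_sum, ← sum_div]
      push_cast at h1
      have h6 : (∑ r ∈ range p, (KK p N U (c a) (d a) r : ℝ)) / (W p * N) ≤ (l : ℝ) ^ e p := by
        rw [div_le_iff₀ (by positivity)]
        refine h1.trans (le_of_eq ?_)
        rw [← mul_assoc, ← h2]
      have h7 := mul_le_mul_of_nonneg_left h6 (hτW p)
      have h8 : (p : ℝ) * (1 + (τ ^ W p - 1) * ((l : ℝ) ^ e p / p)) =
          p + (τ ^ W p - 1) * (l : ℝ) ^ e p := by field_simp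
      rw [h8]
      simpa using h7)
  have pt : ∀ n : ℕ, (if Good q l n then (0 : ℝ) else 1) ≤
      (if Good q y (n % M) then 0 else 1) * ∏ _p ∈ S, (1 : ℝ) +
        1 / τ ^ N * ∏ p ∈ S, g p (n % M) (n % p) := by
    intro n
    have h0 : 0 ≤ 1 / τ ^ N * ∏ p ∈ S, g p (n % M) (n % p) :=
      mul_nonneg (by positivity) (prod_nonneg fun p hp => hg0 p hp _ _)
    rw [prod_const_one, mul_one]
    split_ifs with h1 h2 h2
    · linarith
    · linarith
    swap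
    · linarith
    have h3 := (hcd _ h2).modEq (Nat.mod_modEq n M)
    have h4 : N * N ≤ ∑ p ∈ S, KK p N U (c (n % M)) (d (n % M)) (n % p) := by
      have h5 : (range N ×ˢ range N).card = N * N := by simp
      rw [← h5]
      refine le_trans (card_le_card fun x hx => ?_) card_biUnion_le
      by_contra hn
      have h6 := shift hy h3 x.1 x.2
      refine h1 ⟨_, _, h6.1, h6.2.1, h6.2.2.1, fun p hp hd => ?_⟩
      by_cases h7 : p ∈ DD q y
      · exact h6.2.2.2 p h7 hd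
      · refine hn (mem_biUnion.2 ⟨p, mem_sdiff.2 ⟨hp, h7⟩, mem_filter.2 ⟨hx, ?_⟩⟩)
        refine (dvd_sub hd (Nat.modEq_iff_dvd.1 (Nat.mod_modEq n p))).trans (dvd_of_eq ?_)
        unfold mm
        ring
    have h5 := chern S (fun p => KK p N U (c (n % M)) (d (n % M)) (n % p)) W hN0 hτ
      (fun p _ => hW0 p) (fun p hp => by
        obtain ⟨⟨a1, -, a2⟩, -⟩ := hCl p hp
        have := KK_le (W := W p) a1 a2 hl (he p (hCl p hp)).2 hUl (c (n % M)) (d (n % M)) (n % p)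
        rwa [← hNW p hp] at this) h4
    rw [zero_add, one_div_mul_eq_div, le_div_iff₀ hτN, one_mul]
    exact h5
  have hP : (0 : ℝ) < ∏ p ∈ S, (p : ℝ) := prod_pos fun p hp => by exact_mod_cast (hSp p hp).1.pos
  have hMR : (0 : ℝ) < M := by exact_mod_cast hM0
  have s3 : BB q l ≤ (BB q y + M * φ) * ∏ p ∈ S, (p : ℝ) := by
    unfold BB
    rw [hMM]
    refine (sum_le_sum fun n _ => pt n).trans ?_
    rw [sum_add_distrib, add_mul]
    refine add_le_add (s1.trans (le_of_eq (by simp [hM]))) (s2.trans ?_)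
    rw [prod_mul_distrib, sum_const, card_range, nsmul_eq_mul]
    have h1 := hφ S hCl
    rw [← div_le_iff₀ hτN] at h1
    calc _ = M * ((∏ p ∈ S, (1 + (τ ^ W p - 1) * ((l : ℝ) ^ e p / p))) / τ ^ N) *
          ∏ p ∈ S, (p : ℝ) := by ring
      _ ≤ _ := by gcongr
  rw [hMM]
  push_cast
  rw [div_le_iff₀ (by positivity)]
  refine s3.trans (le_of_eq ?_)
  field_simp

theorem step0 {q y : ℕ} (hl : ¬ (y + 1).Prime) :
    BB q (y + 1) / MM q (y + 1) = BB q y / MM q y := by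
  have h : DD q (y + 1) = DD q y := filter_congr fun p _ => and_congr_right fun _ =>
    ⟨fun h r hr hd => by
      have h1 := h r hr hd
      have : r ≠ y + 1 := fun e => hl (e ▸ hr)
      omega, fun h r hr hd => (h r hr hd).trans (by omega)⟩
  have h1 : MM q (y + 1) = MM q y := by unfold MM; rw [h]
  have h2 : ∀ n, Good q (y + 1) n ↔ Good q y n := fun n => by unfold Good Cd; rw [h]
  unfold BB
  simp only [h1, h2]

theorem stages {q : ℕ} {φ : ℕ → ℝ} (h0 : ∀ l, 0 ≤ φ l) (hS : ∀ l, l.Prime → 3 ≤ l → St l (φ l))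
    (y : ℕ) : BB q (y + 2) / MM q (y + 2) ≤ ∑ i ∈ range y, φ (i + 3) := by
  induction y with
  | zero => simp [BB, base]
  | succ y ih =>
    rw [sum_range_succ]
    by_cases h : (y + 2 + 1).Prime
    · have := step (q := q) (by omega) h (hS _ h (by omega))
      exact this.trans (by linarith)
    · have := step0 (q := q) h
      exact this.le.trans (by linarith [h0 (y + 3)])

end Pool.Agent.MP_c903c4_nt.X
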