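import Pool.Agent.Mg.Fc903c4.G4d5dea
import Pool.Agent.MP_c903c4_nt.X.Stage

/-!
Reciprocal sums of the primes of one stage.
-/

open Finset
open scoped Classical

noncomputable section

namespace Pool.Agent.MP_c903c4_nt.X

theorem anti_sum {f : ℕ → ℝ} (hf : Antitone f) (J : Finset ℕ) :
    ∑ j ∈ J, f j ≤ ∑ j ∈ range J.card, f j := by
  induction J using Finset.induction_on_max with
  | empty => simp
  | insert a s ha ih =>
    have h1 : a ∉ s := fun h => lt_irrefl _ (ha a h)
    have h2 : s.card ≤ a := by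
      rw [← card_range a]
      exact card_le_card fun x hx => mem_range.2 (ha x hx)
    rw [sum_insert h1, card_insert_of_notMem h1, sum_range_succ]
    linarith [hf h2]

theorem harm_lin {A D : ℝ} (hA : 0 < A) (hD : 0 < D) (n : ℕ) :
    ∑ i ∈ range (n + 1), 1 / (A + D * i) ≤ 1 / A + Real.log (1 + D * n / A) / D := by
  induction n with
  | zero => simp
  | succ n ih =>
    rw [sum_range_succ]
    have h1 : 0 < A + D * n := by positivity
    have h2 : 0 < A + D * (n + 1 : ℕ) := by positivity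
    have h3 := Real.one_sub_inv_le_log_of_pos (div_pos h2 h1)
    have h4 : Real.log (1 + D * (n + 1 : ℕ) / A) =
        Real.log (1 + D * n / A) + Real.log ((A + D * (n + 1 : ℕ)) / (A + D * n)) := by
      rw [← Real.log_mul (by positivity) (by positivity)]
      congr 1
      field_simp
    have h5 : 1 - ((A + D * (n + 1 : ℕ)) / (A + D * n))⁻¹ = D * (1 / (A + D * (n + 1 : ℕ))) := by
      field_simp
      push_cast
      ring
    rw [h4, add_div]
    have h6 : 1 / (A + D * (n + 1 : ℕ)) ≤ Real.log ((A + D * (n + 1 : ℕ)) / (A + D * n)) / D := by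
      rw [le_div_iff₀ hD]
      linarith
    linarith

theorem fiber {L A : ℕ} (hL : 0 < L) (hA : 0 < A) (F : Finset ℕ)
    (hF : ∀ p ∈ F, P3 p ∧ LL p = L ∧ A ≤ p) {N : ℝ} (hN : F.card ≤ N) :
    ∑ p ∈ F, (1 : ℝ) / p ≤ 1 / A + Real.log (1 + 4 * L * N / A) / (4 * L) := by
  have hAR : (0 : ℝ) < A := by exact_mod_cast hA
  have hLR : (0 : ℝ) < 4 * L := by positivity
  have hmod : ∀ p ∈ F, p ≡ 2 * L + 1 [MOD 4 * L] := by
    intro p hp
    obtain ⟨h1, h2, -⟩ := hF p hp
    obtain ⟨u, hu⟩ := LL_two h1.1 h1.2.2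
    rw [h2] at hu
    have h3 := h1.2.1
    obtain ⟨j, rfl⟩ : ∃ j, u = 2 * j + 1 := by
      refine ⟨u / 2, ?_⟩
      by_contra hn
      have h4 : u = 2 * (u / 2) := by omega
      have h5 : p - 1 = 4 * (L * (u / 2)) := by rw [hu]; nth_rewrite 1 [h4]; ring
      omega
    have h4 : p = 2 * L + 1 + 4 * L * j := by
      have : 2 * L * (2 * j + 1) = 2 * L + 4 * L * j := by ring
      omega
    rw [h4]
    exact (Nat.modEq_iff_dvd' (by omega)).2 (by simp) |>.symm
  have hinj : Set.InjOn (fun p => (p - A) / (4 * L)) F := by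
    intro p hp p' hp' h
    have h1 : p - A ≡ p' - A [MOD 4 * L] := by
      refine Nat.ModEq.add_right_cancel' A ?_
      rw [Nat.sub_add_cancel (hF p hp).2.2, Nat.sub_add_cancel (hF p' hp').2.2]
      exact (hmod p hp).trans (hmod p' hp').symm
    have h2 : (p - A) / (4 * L) = (p' - A) / (4 * L) := h
    have h3 : p - A = p' - A := by
      rw [← Nat.div_add_mod (p - A) (4 * L), ← Nat.div_add_mod (p' - A) (4 * L), h2, h1]
    have := (hF p hp).2.2
    have := (hF p' hp').2.2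
    omega
  have hanti : Antitone fun i : ℕ => 1 / ((A : ℝ) + 4 * L * i) := fun i j h => by
    have : (i : ℝ) ≤ j := by exact_mod_cast h
    exact one_div_le_one_div_of_le (by positivity) (by gcongr)
  calc ∑ p ∈ F, (1 : ℝ) / p ≤ ∑ p ∈ F, 1 / ((A : ℝ) + 4 * L * ((p - A) / (4 * L) : ℕ)) := by
        refine sum_le_sum fun p hp => one_div_le_one_div_of_le (by positivity) ?_
        have h1 := Nat.mul_div_le (p - A) (4 * L)
        have h2 := (hF p hp).2.2
        exact_mod_cast (by omega : A + 4 * L * ((p - A) / (4 * L)) ≤ p)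
    _ ≤ ∑ i ∈ range F.card, 1 / ((A : ℝ) + 4 * L * i) := by
        rw [← sum_image (f := fun i : ℕ => 1 / ((A : ℝ) + 4 * L * i)) hinj,
          ← card_image_of_injOn hinj]
        exact anti_sum hanti _
    _ ≤ ∑ i ∈ range (F.card + 1), 1 / ((A : ℝ) + 4 * L * i) := by
        rw [sum_range_succ]
        exact le_add_of_nonneg_right (by positivity)
    _ ≤ _ := by
        refine (harm_lin hAR hLR _).trans ?_
        gcongr

theorem fiber_card {L B : ℕ} (hL : 0 < L) (F : Finset ℕ)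
    (hF : ∀ p ∈ F, P3 p ∧ LL p = L ∧ B ≤ p) : B ^ F.card ≤ 9 ^ L := by
  have h1 : ∏ p ∈ F, p ∣ 9 ^ L - 1 := by
    refine Finset.prod_primes_dvd _ (fun p hp => (hF p hp).1.1.prime) fun p hp => ?_
    have h2 := (pow_LL (p := p)).1
    rw [(hF p hp).2.1, pow_mul] at h2
    have h3 : ((1 : ℕ) : ZMod p) = ((9 ^ L : ℕ) : ZMod p) := by
      push_cast
      rw [← h2]
      norm_num
    exact (Nat.modEq_iff_dvd' (Nat.one_le_pow _ _ (by norm_num))).1
      ((ZMod.natCast_eq_natCast_iff _ _ _).1 h3)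
  have h2 : 1 < 9 ^ L := Nat.one_lt_pow hL.ne' (by norm_num)
  have h3 : ∏ p ∈ F, p ≤ 9 ^ L - 1 := Nat.le_of_dvd (by omega) h1
  have h4 : B ^ F.card ≤ ∏ p ∈ F, p := pow_card_le_prod _ _ _ fun p hp => (hF p hp).2.2
  omega

/-- The odd primes up to l. -/
def Pr (l : ℕ) : Finset ℕ := (Icc 3 l).filter Nat.Prime

/-- Odd, positive and smooth. -/
def Os (l m : ℕ) : Prop := 0 < m ∧ ∀ r : ℕ, r.Prime → r ∣ m → r ∈ Pr l

/-- Grouping the primes of a stage by the cofactor. -/
theorem group {l : ℕ} (S : Finset ℕ) (hS : ∀ p ∈ S, Cl l p) (h : ℕ → ℝ)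
    (hh : ∀ m, Os l m → ∀ F ⊆ S, (∀ p ∈ F, LL p = l * m) → ∑ p ∈ F, (1 : ℝ) / p ≤ h m) :
    ∃ A : Finset ℕ, (∀ m ∈ A, Os l m) ∧ ∑ p ∈ S, (1 : ℝ) / p ≤ ∑ m ∈ A, h m := by
  have hO : ∀ m ∈ S.image (fun p => LL p / l), Os l m := by
    intro m hm
    obtain ⟨p, hp, rfl⟩ := mem_image.1 hm
    obtain ⟨h1, h2, h3⟩ := hS p hp
    have h4 := LL_pos h1.1 h1.2.2
    refine ⟨Nat.div_pos (Nat.le_of_dvd h4 h2) (Nat.pos_of_dvd_of_pos h2 h4), fun r hr hd => ?_⟩
    have h5 : r ∣ LL p := hd.trans (Nat.div_dvd_of_dvd h2)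
    have h6 : r ≠ 2 := fun e => LL_odd h1 (e ▸ h5)
    have h7 := hr.two_le
    exact mem_filter.2 ⟨mem_Icc.2 ⟨by omega, h3 r hr h5⟩, hr⟩
  refine ⟨_, hO, ?_⟩
  rw [← sum_fiberwise_of_maps_to (t := S.image fun p => LL p / l) (g := fun p => LL p / l)
    (fun p hp => mem_image_of_mem _ hp)]
  refine sum_le_sum fun m hm => hh m (hO m hm) _ (filter_subset _ _) fun p hp => ?_
  obtain ⟨h1, h2⟩ := mem_filter.1 hp
  rw [← h2, Nat.mul_div_cancel' (hS p h1).2.1]

/-- The Euler product. -/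
def PI (l : ℕ) : ℝ := ∏ r ∈ Pr l, (1 - 1 / (r : ℝ))⁻¹

/-- Its logarithmic derivative. -/
def LA (l : ℕ) : ℝ := ∑ r ∈ Pr l, Real.log r / (r - 1)

theorem sum_inv {l : ℕ} (A : Finset ℕ) (hA : ∀ m ∈ A, Os l m) : ∑ m ∈ A, (1 : ℝ) / m ≤ PI l :=
  Arith_euler Arith_inv (fun n => by show 0 ≤ 1 / (n : ℝ); positivity)
    (fun p h => by
      show 1 / (p : ℝ) < 1
      rw [div_lt_one (by exact_mod_cast h.pos)]
      exact_mod_cast h.one_lt) (Pr l) A (fun _ h => (mem_filter.1 h).2) fun m hm => (hA m hm).2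

theorem PI_nonneg (l : ℕ) : 0 ≤ PI l := by simpa using sum_inv (l := l) ∅ (by simp)

theorem sum_inv_dvd {l : ℕ} (A : Finset ℕ) (hA : ∀ m ∈ A, Os l m) {d : ℕ} (hd : 0 < d) :
    ∑ m ∈ A, (if d ∣ m then (1 : ℝ) / m else 0) ≤ PI l * (1 / d) := by
  rw [← sum_filter]
  have hinj : Set.InjOn (fun m => m / d) (A.filter fun m => d ∣ m) := by
    intro a ha b hb h
    have h1 : a / d = b / d := h
    rw [← Nat.mul_div_cancel' (mem_filter.1 ha).2, ← Nat.mul_div_cancel' (mem_filter.1 hb).2, h1]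
  have h1 := sum_inv (l := l) ((A.filter fun m => d ∣ m).image fun m => m / d) fun m hm => by
    obtain ⟨a, ha, rfl⟩ := mem_image.1 hm
    obtain ⟨h1, h2⟩ := mem_filter.1 ha
    exact ⟨Nat.div_pos (Nat.le_of_dvd (hA a h1).1 h2) hd,
      fun r hr h => (hA a h1).2 r hr (h.trans (Nat.div_dvd_of_dvd h2))⟩
  rw [sum_image hinj] at h1
  refine le_trans (le_of_eq ?_) (mul_le_mul_of_nonneg_right h1 (by positivity))
  rw [sum_mul]
  refine sum_congr rfl fun m hm => ?_
  obtain ⟨u, rfl⟩ := (mem_filter.1 hm).2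
  rw [Nat.mul_div_cancel_left _ hd, one_div_mul_one_div]
  push_cast
  rw [mul_comm]

theorem log_le {l m J : ℕ} (hm : Os l m) (hJ : m ≤ J) :
    Real.log m ≤ ∑ r ∈ Pr l, Real.log r * ∑ j ∈ range J, (if r ^ (j + 1) ∣ m then 1 else 0) := by
  rw [Real.log_nat_eq_sum_factorization, Finsupp.sum]
  refine le_trans (sum_le_sum fun r hr => ?_) (sum_le_sum_of_subset_of_nonneg
    (s := m.factorization.support) (fun r hr => ?_) fun r _ _ => ?_)
  · rw [mul_comm]
    refine mul_le_mul_of_nonneg_left ?_ (Real.log_natCast_nonneg _)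
    have h1 := Nat.prime_of_mem_primeFactors (Nat.support_factorization m ▸ hr)
    have h2 := Nat.factorization_lt r hm.1.ne'
    calc (m.factorization r : ℝ) = ∑ j ∈ range (m.factorization r),
          (if r ^ (j + 1) ∣ m then 1 else 0) := by
          rw [sum_congr rfl fun j hj => if_pos ((h1.pow_dvd_iff_le_factorization hm.1.ne').2
            (mem_range.1 hj))]
          simp
      _ ≤ _ := sum_le_sum_of_subset_of_nonneg (range_subset_range.2 (by omega)) fun j _ _ => by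
          split_ifs <;> norm_num
  · rw [Nat.support_factorization] at hr
    exact hm.2 r (Nat.prime_of_mem_primeFactors hr) (Nat.dvd_of_mem_primeFactors hr)
  · exact mul_nonneg (Real.log_natCast_nonneg _) (sum_nonneg fun j _ => by split_ifs <;> norm_num)

theorem geo_le {r : ℝ} (hr : 1 < r) (J : ℕ) : ∑ j ∈ range J, 1 / r ^ (j + 1) ≤ 1 / (r - 1) := by
  have : ∑ j ∈ range J, 1 / r ^ (j + 1) = 1 / (r - 1) - 1 / ((r - 1) * r ^ J) := by
    have h1 : r - 1 ≠ 0 := by linarith
    induction J with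
    | zero => simp
    | succ J ih =>
      rw [sum_range_succ, ih]
      field_simp
      ring
  rw [this]
  have h2 : 0 < r - 1 := by linarith
  exact sub_le_self _ (by positivity)

theorem sum_log {l : ℕ} (A : Finset ℕ) (hA : ∀ m ∈ A, Os l m) :
    ∑ m ∈ A, Real.log m / m ≤ PI l * LA l := by
  set J := A.sup id with hJ
  calc _ ≤ ∑ m ∈ A, ∑ r ∈ Pr l, Real.log r *
          ∑ j ∈ range J, (if r ^ (j + 1) ∣ m then (1 : ℝ) / m else 0) := by
        refine sum_le_sum fun m hm => ?_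
        refine (div_le_div_of_nonneg_right (log_le (hA m hm) (le_sup (f := id) hm))
          (by positivity)).trans (le_of_eq ?_)
        rw [sum_div]
        refine sum_congr rfl fun r _ => ?_
        rw [mul_div_assoc, sum_div]
        simp only [ite_div, zero_div]
        rfl
    _ ≤ _ := by
        rw [sum_comm, LA, mul_sum]
        refine sum_le_sum fun r hr => ?_
        have h1 := (mem_filter.1 hr).2
        rw [← mul_sum, sum_comm]
        have h2 : ∑ j ∈ range J, ∑ m ∈ A, (if r ^ (j + 1) ∣ m then (1 : ℝ) / m else 0) ≤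
            PI l * (1 / (r - 1)) := by
          refine (sum_le_sum fun j _ => sum_inv_dvd A hA (pow_pos h1.pos (j + 1))).trans ?_
          rw [← mul_sum]
          push_cast
          exact mul_le_mul_of_nonneg_left (geo_le (by exact_mod_cast h1.one_lt) J) (PI_nonneg l)
        exact (mul_le_mul_of_nonneg_left h2 (Real.log_natCast_nonneg _)).trans (le_of_eq (by ring))

end Pool.Agent.MP_c903c4_nt.X
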