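import Pool.Agent.MP_c903c4_nt.Defs
import Pool.Agent.MP_c903c4_nt.X.ChkOk

/-!
The grid of shifts at one stage.
-/

open Finset

namespace Pool.Agent.MP_c903c4_nt.X

/-- The number of shifts killed by p. -/
def KK (p N U c d r : ℕ) : ℕ :=
  ((range N ×ˢ range N).filter fun x => (p : ℤ) ∣ mm r (c + U * x.1) (d + U * x.2)).card

theorem KK_sum (p N U c d : ℕ) : ∑ r ∈ range p, KK p N U c d r ≤ N * N := by
  unfold KK
  simp only [card_filter]
  rw [sum_comm]
  calc _ ≤ ∑ _x ∈ range N ×ˢ range N, 1 := by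
        refine sum_le_sum fun x _ => ?_
        rw [← card_filter]
        refine card_le_one.2 fun r hr s hs => ?_
        obtain ⟨h1, h2⟩ := mem_filter.1 hr
        obtain ⟨h3, h4⟩ := mem_filter.1 hs
        have h5 : (p : ℤ) ∣ (s : ℤ) - r := by
          have := dvd_sub h4 h2
          refine this.trans (dvd_of_eq ?_)
          unfold mm
          ring
        exact Nat.ModEq.eq_of_lt_of_lt (Nat.modEq_iff_dvd.2 h5) (mem_range.1 h1) (mem_range.1 h3)
    _ = _ := by simp

theorem cnt_le {A W : ℕ} (T : Finset ℕ) (hT : ∀ s ∈ T, s < A * W)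
    (h : ∀ s ∈ T, ∀ t ∈ T, s ≡ t [MOD A]) : T.card ≤ W := by
  rw [← card_range W]
  refine card_le_card_of_injOn (fun s => s / A) (fun s hs => ?_) fun s hs t ht e => ?_
  · exact mem_coe.2 (mem_range.2 (Nat.div_lt_of_lt_mul (hT s hs)))
  · have e1 : s / A = t / A := e
    have e2 : s % A = t % A := h s hs t ht
    rw [← Nat.div_add_mod s A, ← Nat.div_add_mod t A, e1, e2]

theorem inj_aux {p A U c s t : ℕ} (hp : p.Prime) {g : ZMod p} (hg : g ≠ 0) (hU : Nat.Coprime A U)
    (hA : A ∣ orderOf (g ^ 2)) (hst : s ≤ t) (h : g ^ (c + U * s) = g ^ (c + U * t)) :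
    s ≡ t [MOD A] := by
  have := Fact.mk hp
  obtain ⟨u, rfl⟩ := Nat.exists_eq_add_of_le hst
  have h1 : g ^ (U * u) = 1 := by
    rw [mul_add, ← add_assoc, pow_add _ (c + U * s)] at h
    exact (mul_left_cancel₀ (pow_ne_zero _ hg) (by rw [mul_one]; exact h)).symm
  have h2 : orderOf (g ^ 2) ∣ U * u := by
    rw [orderOf_dvd_iff_pow_eq_one, ← pow_mul, mul_comm, pow_mul, h1, one_pow]
  exact (Nat.modEq_iff_dvd' hst).2 (by simpa using hU.dvd_of_dvd_mul_left (hA.trans h2))

theorem inj_pow {p A U c s t : ℕ} (hp : p.Prime) {g : ℤ} (hg : (g : ZMod p) ≠ 0)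
    (hU : Nat.Coprime A U) (hA : A ∣ orderOf ((g : ZMod p) ^ 2))
    (h : (p : ℤ) ∣ g ^ (c + U * t) - g ^ (c + U * s)) : s ≡ t [MOD A] := by
  rw [← ZMod.intCast_eq_intCast_iff_dvd_sub] at h
  push_cast at h
  rcases le_total s t with hst | hst
  · exact inj_aux hp hg hU hA hst h
  · exact (inj_aux hp hg hU hA hst h.symm).symm

theorem LL_pos {p : ℕ} (hp : p.Prime) (h5 : 5 < p) : 0 < LL p := by
  have := Nat.pos_of_dvd_of_pos (LL_two hp h5) (by omega)
  omega

theorem pow_dvd_LL {p l e : ℕ} (hp : p.Prime) (h5 : 5 < p) (hl : l.Prime) (h : l ^ e ∣ LL p) :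
    l ^ e ∣ orderOf (9 : ZMod p) ∨ l ^ e ∣ orderOf (25 : ZMod p) := by
  have h0 := (LL_pos hp h5).ne'
  have ha : orderOf (9 : ZMod p) ≠ 0 := fun h => h0 (by unfold LL; rw [h]; simp)
  have hb : orderOf (25 : ZMod p) ≠ 0 := fun h => h0 (by unfold LL; rw [h]; simp)
  rw [hl.pow_dvd_iff_le_factorization h0] at h
  rw [hl.pow_dvd_iff_le_factorization ha, hl.pow_dvd_iff_le_factorization hb]
  unfold LL at h
  rw [Nat.factorization_lcm ha hb, Finsupp.sup_apply] at h
  exact le_max_iff.1 h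

theorem KK_le {p l e W U : ℕ} (hp : p.Prime) (h5 : 5 < p) (hl : l.Prime) (h : l ^ e ∣ LL p)
    (hU : Nat.Coprime l U) (c d r : ℕ) : KK p (l ^ e * W) U c d r ≤ W * (l ^ e * W) := by
  have hU' : Nat.Coprime (l ^ e) U := Nat.Coprime.pow_left _ hU
  obtain ⟨h3, h5'⟩ := ne3 h5
  unfold KK
  set N := l ^ e * W with hN
  rcases pow_dvd_LL hp h5 hl h with h9 | h25
  · have := card_le_mul_card_image_of_maps_to (f := fun x : ℕ × ℕ => x.2) (t := range N)
      (s := (range N ×ˢ range N).filter fun x => (p : ℤ) ∣ mm r (c + U * x.1) (d + U * x.2))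
      (fun x hx => (mem_product.1 (mem_filter.1 hx).1).2) W ?_
    · simpa using this
    intro b _
    rw [← card_image_of_injOn (f := fun x : ℕ × ℕ => x.1) ?_]
    · refine cnt_le (A := l ^ e) _ (fun s hs => ?_) fun s hs t ht => ?_
      · obtain ⟨x, hx, rfl⟩ := mem_image.1 hs
        exact mem_range.1 (mem_product.1 (mem_filter.1 (mem_filter.1 hx).1).1).1
      · obtain ⟨x, hx, rfl⟩ := mem_image.1 hs
        obtain ⟨y, hy, rfl⟩ := mem_image.1 ht
        obtain ⟨a1, a2⟩ := mem_filter.1 hx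
        obtain ⟨a3, a4⟩ := mem_filter.1 hy
        refine inj_pow (g := 3) (c := c) hp (by simpa using h3) hU'
          (by rwa [show (((3 : ℤ) : ZMod p)) ^ 2 = 9 by norm_num]) ?_
        have := dvd_sub (mem_filter.1 a1).2 (mem_filter.1 a3).2
        rw [a2, a4] at this
        refine this.trans (dvd_of_eq ?_)
        unfold mm
        ring
    · intro x hx y hy e
      exact Prod.ext e ((mem_filter.1 hx).2.trans (mem_filter.1 hy).2.symm)
  · have := card_le_mul_card_image_of_maps_to (f := fun x : ℕ × ℕ => x.1) (t := range N)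
      (s := (range N ×ˢ range N).filter fun x => (p : ℤ) ∣ mm r (c + U * x.1) (d + U * x.2))
      (fun x hx => (mem_product.1 (mem_filter.1 hx).1).1) W ?_
    · simpa using this
    intro b _
    rw [← card_image_of_injOn (f := fun x : ℕ × ℕ => x.2) ?_]
    · refine cnt_le (A := l ^ e) _ (fun s hs => ?_) fun s hs t ht => ?_
      · obtain ⟨x, hx, rfl⟩ := mem_image.1 hs
        exact mem_range.1 (mem_product.1 (mem_filter.1 (mem_filter.1 hx).1).1).2
      · obtain ⟨x, hx, rfl⟩ := mem_image.1 hs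
        obtain ⟨y, hy, rfl⟩ := mem_image.1 ht
        obtain ⟨a1, a2⟩ := mem_filter.1 hx
        obtain ⟨a3, a4⟩ := mem_filter.1 hy
        refine inj_pow (g := 5) (c := d) hp (by simpa using h5') hU'
          (by rwa [show (((5 : ℤ) : ZMod p)) ^ 2 = 25 by norm_num]) ?_
        have := dvd_sub (mem_filter.1 a1).2 (mem_filter.1 a3).2
        rw [a2, a4] at this
        refine this.trans (dvd_of_eq ?_)
        unfold mm
        ring
    · intro x hx y hy e
      exact Prod.ext ((mem_filter.1 hx).2.trans (mem_filter.1 hy).2.symm) e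

theorem chern (S : Finset ℕ) (K W : ℕ → ℕ) {N : ℕ} (hN : 0 < N) {τ : ℝ} (hτ : 1 ≤ τ)
    (hW : ∀ p ∈ S, 0 < W p) (hK : ∀ p ∈ S, K p ≤ W p * N) (h : N * N ≤ ∑ p ∈ S, K p) :
    τ ^ N ≤ ∏ p ∈ S, (1 + (τ ^ W p - 1) * (K p / (W p * N))) := by
  have hθ : 0 ≤ Real.log τ := Real.log_nonneg hτ
  have e : ∀ n : ℕ, τ ^ n = Real.exp (n * Real.log τ) := fun n => by
    rw [Real.exp_nat_mul, Real.exp_log (by linarith)]
  have hN' : (0 : ℝ) < N := by exact_mod_cast hN
  calc τ ^ N ≤ Real.exp (∑ p ∈ S, (K p / N) * Real.log τ) := by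
        rw [e, ← sum_mul, ← sum_div]
        refine Real.exp_le_exp.2 (mul_le_mul_of_nonneg_right ?_ hθ)
        rw [le_div_iff₀ hN']
        exact_mod_cast h
    _ ≤ _ := by
        rw [Real.exp_sum]
        refine prod_le_prod (fun p _ => (Real.exp_pos _).le) fun p hp => ?_
        have hW' : (0 : ℝ) < W p := by exact_mod_cast hW p hp
        set y : ℝ := K p / (W p * N) with hy
        have hy0 : 0 ≤ y := by positivity
        have hy1 : y ≤ 1 := by
          rw [hy, div_le_one (by positivity)]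
          exact_mod_cast hK p hp
        have := convexOn_exp.2 (Set.mem_univ 0) (Set.mem_univ (W p * Real.log τ))
          (sub_nonneg.2 hy1) hy0 (by ring)
        simp only [smul_eq_mul, mul_zero, zero_add, Real.exp_zero, mul_one] at this
        have e2 : (K p / N : ℝ) * Real.log τ = y * (W p * Real.log τ) := by
          rw [hy]
          field_simp
        rw [e2, e]
        linarith

end Pool.Agent.MP_c903c4_nt.X
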