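import Pool.Agent.MP_c903c4_nt.X.Fiber

/-!
The stages of the primes from 23 on.
-/

open Finset
open scoped Classical

noncomputable section

namespace Pool.Agent.MP_c903c4_nt.X

/-- The second factor of the bound. -/
def AA (l : ℕ) : ℝ := 1 + Real.log (6 * l / 5) / 2 + LA l / 2

theorem large_sum {l : ℕ} (hl : 23 ≤ l) (S : Finset ℕ) (hS : ∀ p ∈ S, Cl l p) :
    ∑ p ∈ S, (1 : ℝ) / p ≤ PI l * AA l / (2 * l) := by
  have hlR : (23 : ℝ) ≤ l := by exact_mod_cast hl
  refine (group S hS
    (fun m => ((1 + Real.log (6 * l / 5) / 2) * (1 / m) + Real.log m / m / 2) / (2 * l)) ?_).elim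
    fun A ⟨hA, h⟩ => ?_
  swap
  · refine h.trans ?_
    rw [← sum_div, sum_add_distrib, ← mul_sum, ← sum_div]
    refine div_le_div_of_nonneg_right ?_ (by positivity)
    have h1 : 0 ≤ 1 + Real.log (6 * l / 5) / 2 := by
      have := Real.log_nonneg (by linarith : (1 : ℝ) ≤ 6 * l / 5)
      linarith
    have h2 := mul_le_mul_of_nonneg_left (sum_inv A hA) h1
    have h3 := sum_log A hA
    unfold AA
    linarith
  intro m hm F hF hL
  have hm0 := hm.1
  have hmR : (1 : ℝ) ≤ m := by exact_mod_cast hm0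
  have hL0 : 23 ≤ l * m := hl.trans (Nat.le_mul_of_pos_right _ hm0)
  have hb : ∀ p ∈ F, 2 * (l * m) + 1 ≤ p := fun p hp => by
    have h1 := (hS p (hF hp)).1
    have h2 := Nat.le_of_dvd (by have := h1.2.2; omega) (LL_two h1.1 h1.2.2)
    rw [hL p hp] at h2
    have := h1.2.2
    omega
  have hc := fiber_card (B := 47) (by omega : 0 < l * m) F fun p hp =>
    ⟨(hS p (hF hp)).1, hL p hp, by have := hb p hp; omega⟩
  have hc2 : 7 * F.card ≤ 4 * (l * m) := by
    refine (Nat.pow_le_pow_iff_right (by norm_num : 1 < 9)).1 ?_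
    calc 9 ^ (7 * F.card) ≤ (47 ^ 4) ^ F.card := by
          rw [pow_mul]
          exact Nat.pow_le_pow_left (by norm_num) _
      _ = (47 ^ F.card) ^ 4 := by rw [← pow_mul, ← pow_mul, mul_comm]
      _ ≤ (9 ^ (l * m)) ^ 4 := Nat.pow_le_pow_left hc _
      _ = _ := by rw [← pow_mul, mul_comm]
  have hc3 : (F.card : ℝ) ≤ 4 * (l * m) / 7 := by
    rw [le_div_iff₀ (by norm_num)]
    exact_mod_cast (by omega : F.card * 7 ≤ 4 * (l * m))
  have h1 := fiber (A := 2 * (l * m)) (by omega : 0 < l * m) (by omega) F (fun p hp =>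
    ⟨(hS p (hF hp)).1, hL p hp, by have := hb p hp; omega⟩) hc3
  push_cast at h1
  refine h1.trans ?_
  have hLR : (23 : ℝ) ≤ l * m := by exact_mod_cast hL0
  have h2 : Real.log (1 + 4 * (l * m) * (4 * (l * m) / 7) / (2 * (l * m))) ≤
      Real.log (6 * l / 5) + Real.log m := by
    rw [← Real.log_mul (by positivity) (by positivity)]
    refine Real.log_le_log (by positivity) ?_
    have : (4 : ℝ) * (l * m) * (4 * (l * m) / 7) / (2 * (l * m)) = 8 * (l * m) / 7 := by
      field_simp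
      ring
    rw [this]
    linarith
  calc _ ≤ 1 / (2 * ((l : ℝ) * m)) + (Real.log (6 * l / 5) + Real.log m) / (4 * (l * m)) := by
        gcongr
    _ = _ := by
        field_simp
        ring

theorem log_up (k : ℕ) {x : ℝ} (hx : 0 < x) :
    Real.log x ≤ k * 0.6931472 + (x / 2 ^ k - 1) := by
  have h1 := Real.log_le_sub_one_of_pos (show 0 < x / 2 ^ k by positivity)
  rw [Real.log_div hx.ne' (by positivity), Real.log_pow] at h1
  have h2 := Real.log_two_lt_d9
  nlinarith [(Nat.cast_nonneg k : (0 : ℝ) ≤ k)]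

theorem Pr23 : Pr 23 = {3, 5, 7, 11, 13, 17, 19, 23} := by
  unfold Pr
  decide +kernel

theorem LA_nonneg (l : ℕ) : 0 ≤ LA l := sum_nonneg fun r hr => by
  have : (1 : ℝ) < r := by exact_mod_cast (mem_filter.1 hr).2.one_lt
  exact div_nonneg (Real.log_natCast_nonneg _) (by linarith)

theorem large_base : PI 23 * AA 23 ≤ 0.51 * (23 : ℕ) := by
  have h1 : PI 23 ≤ 3.06 := by
    unfold PI
    rw [Pr23]
    norm_num
  have h2 : AA 23 ≤ 3.8 := by
    unfold AA LA
    rw [Pr23]
    have a1 := log_up 2 (x := 3) (by norm_num)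
    have a2 := log_up 2 (x := 5) (by norm_num)
    have a3 := log_up 3 (x := 7) (by norm_num)
    have a4 := log_up 3 (x := 11) (by norm_num)
    have a5 := log_up 4 (x := 13) (by norm_num)
    have a6 := log_up 4 (x := 17) (by norm_num)
    have a7 := log_up 4 (x := 19) (by norm_num)
    have a8 := log_up 5 (x := 23) (by norm_num)
    have a9 := log_up 5 (x := 138 / 5) (by norm_num)
    norm_num at *
    linarith
  have h3 : 0 ≤ AA 23 := by
    unfold AA
    have := LA_nonneg 23
    have := Real.log_nonneg (by norm_num : (1 : ℝ) ≤ 6 * (23 : ℕ) / 5)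
    linarith
  have := mul_le_mul h1 h2 h3 (by norm_num)
  norm_num at *
  linarith

theorem large_step {l : ℕ} (hl : 23 ≤ l) (ho : l % 2 = 1) (h : PI l * AA l ≤ 0.51 * l) :
    PI (l + 2) * AA (l + 2) ≤ 0.51 * (l + 2 : ℕ) := by
  have hlR : (23 : ℝ) ≤ l := by exact_mod_cast hl
  have hsub : Pr (l + 2) ⊆ insert (l + 2) (Pr l) := by
    intro r hr
    obtain ⟨h1, h2⟩ := mem_filter.1 hr
    rw [mem_Icc] at h1
    by_cases e : r = l + 2
    · exact e ▸ mem_insert_self _ _
    · have := h2.eq_two_or_odd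
      exact mem_insert_of_mem (mem_filter.2 ⟨mem_Icc.2 ⟨h1.1, by omega⟩, h2⟩)
  have hn : l + 2 ∉ Pr l := fun hh => by
    have := (mem_Icc.1 (mem_filter.1 hh).1).2
    omega
  have hge : ∀ r ∈ insert (l + 2) (Pr l), (2 : ℝ) ≤ r := fun r hr => by
    rcases mem_insert.1 hr with rfl | hr
    · exact_mod_cast (by omega : 2 ≤ l + 2)
    · exact_mod_cast (mem_filter.1 hr).2.two_le
  have hone : ∀ r ∈ insert (l + 2) (Pr l), 1 ≤ (1 - 1 / (r : ℝ))⁻¹ := fun r hr => by
    have h1 := hge r hr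
    have h2 : 1 / (r : ℝ) ≤ 1 / 2 := one_div_le_one_div_of_le two_pos h1
    have h3 : 0 ≤ 1 / (r : ℝ) := by positivity
    exact (one_le_inv₀ (by linarith)).2 (by linarith)
  have h1 : PI (l + 2) ≤ (l + 2) / (l + 1) * PI l := by
    refine (prod_le_prod_of_subset_of_one_le hsub (fun r hr => zero_le_one.trans (hone r (hsub hr)))
      fun r hr _ => hone r hr).trans (le_of_eq ?_)
    rw [prod_insert hn]
    congr 1
    push_cast
    have : (l : ℝ) + 2 - 1 ≠ 0 := by linarith
    field_simp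
    ring
  have h2 : LA (l + 2) ≤ Real.log (l + 2) / (l + 1) + LA l := by
    refine (sum_le_sum_of_subset_of_nonneg hsub fun r hr _ =>
      div_nonneg (Real.log_natCast_nonneg _) (by linarith [hge r hr])).trans (le_of_eq ?_)
    rw [sum_insert hn]
    push_cast
    congr 2
    ring
  have h3 : Real.log (6 * (l + 2 : ℕ) / 5) ≤ Real.log (6 * l / 5) + 2 / l := by
    have e : (6 * (l + 2 : ℕ) / 5 : ℝ) = 6 * l / 5 * (1 + 2 / l) := by
      push_cast
      field_simp
    rw [e, Real.log_mul (by positivity) (by positivity)]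
    linarith [Real.log_le_sub_one_of_pos (show (0 : ℝ) < 1 + 2 / l by positivity)]
  have h4 : Real.log (l + 2) ≤ Real.log (6 * l / 5) := Real.log_le_log (by positivity) (by linarith)
  have h5 : 0 ≤ Real.log (l + 2) := Real.log_nonneg (by linarith)
  have h6 : Real.log (l + 2) / (l + 1) ≤ Real.log (l + 2) / l := by gcongr; linarith
  have h7 := LA_nonneg l
  have h8 : AA (l + 2) ≤ AA l + AA l / l := by
    have : 1 / l + Real.log (l + 2) / l / 2 ≤ AA l / l := by
      rw [div_right_comm, ← add_div]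
      refine div_le_div_of_nonneg_right ?_ (by positivity)
      unfold AA
      linarith
    have e : (2 : ℝ) / l = 2 * (1 / l) := by ring
    unfold AA at *
    linarith
  have h9 : 0 ≤ AA (l + 2) := by
    unfold AA
    have := LA_nonneg (l + 2)
    have := Real.log_nonneg (show (1 : ℝ) ≤ 6 * (l + 2 : ℕ) / 5 by push_cast; linarith)
    linarith
  have h10 := mul_le_mul h1 h8 h9 (mul_nonneg (by positivity) (PI_nonneg l))
  refine h10.trans ?_
  have e : (l + 2) / (l + 1) * PI l * (AA l + AA l / l) = (l + 2) / l * (PI l * AA l) := by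
    field_simp
  rw [e]
  refine (mul_le_mul_of_nonneg_left h (by positivity)).trans (le_of_eq ?_)
  push_cast
  field_simp

theorem large_all (j : ℕ) : PI (23 + 2 * j) * AA (23 + 2 * j) ≤ 0.51 * (23 + 2 * j : ℕ) := by
  induction j with
  | zero => exact large_base
  | succ j ih => exact large_step (l := 23 + 2 * j) (by omega) (by omega) ih

theorem prod_exp (S : Finset ℕ) {β : ℝ} (hβ : 0 ≤ β) :
    ∏ p ∈ S, (1 + β * ((1 : ℝ) / p)) ≤ Real.exp (β * ∑ p ∈ S, (1 : ℝ) / p) := by
  rw [mul_sum, Real.exp_sum]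
  exact prod_le_prod (fun p _ => by positivity) fun p _ => by
    rw [add_comm]
    exact Real.add_one_le_exp _

theorem exp_up {y : ℝ} {n : ℕ} (h : y ≤ n) : Real.exp y * (1 - y / n) ^ n ≤ 1 := by
  have := mul_le_mul_of_nonneg_left (Real.one_sub_div_pow_le_exp_neg h) (Real.exp_pos y).le
  rwa [← Real.exp_add, add_neg_cancel, Real.exp_zero] at this

theorem st_large {l : ℕ} (hp : l.Prime) (hl : 23 ≤ l) : St l (0.54 ^ l) := by
  refine ⟨1, 4, fun _ => 1, by norm_num, fun p h => ⟨le_rfl, by simpa using h.2.1⟩, fun S hS => ?_⟩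
  have hlR : (23 : ℝ) ≤ l := by exact_mod_cast hl
  obtain ⟨j, hj⟩ : ∃ j, l = 23 + 2 * j := ⟨(l - 23) / 2, by have := hp.eq_two_or_odd; omega⟩
  have h1 := large_all j
  rw [← hj] at h1
  have h2 := large_sum hl S hS
  have h3 : 3 * l * ∑ p ∈ S, (1 : ℝ) / p ≤ l * 0.765 := by
    rw [le_div_iff₀ (by positivity)] at h2
    linarith
  have h4 : Real.exp 0.765 ≤ 0.54 * 4 := by
    have := exp_up (y := 0.765) (n := 128) (by norm_num)
    have h5 : (1 : ℝ) ≤ 0.54 * 4 * (1 - 0.765 / (128 : ℕ)) ^ 128 := by norm_num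
    exact le_of_mul_le_mul_right (this.trans h5) (by norm_num)
  calc _ = ∏ p ∈ S, (1 + 3 * l * ((1 : ℝ) / p)) := prod_congr rfl fun p _ => by
        norm_num
        ring
    _ ≤ _ := prod_exp S (by positivity)
    _ ≤ Real.exp 0.765 ^ l := by
        rw [← Real.exp_nat_mul]
        exact Real.exp_le_exp.2 h3
    _ ≤ _ := by
        rw [pow_one, ← mul_pow]
        exact pow_le_pow_left₀ (Real.exp_pos _).le h4 _

end Pool.Agent.MP_c903c4_nt.X
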