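import Pool.Agent.Mg.Fc903c4.G2b1d8e
import Pool.Agent.MP_c903c4_nt.X.Stage

/-!
From success at the last stage to local solubility, and the density bound.
-/

open Finset Filter Topology
open scoped Classical

noncomputable section

namespace Pool.Agent.MP_c903c4_nt.X

theorem loc_of_fin {q n k c d : ℕ} (hq : 0 < q) (hk : q ≤ k) (hc : q ≤ c)
    (h : ∀ p : ℕ, p.Prime → p ≤ q + 2 → ∃ v, Fin' 0 p k k v (mm n c d)) : Loc q n := by
  set P := (range (q + 3)).filter Nat.Prime with hP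
  have h' : ∀ p : ℕ, ∃ v, p ∈ P → Fin' 0 p k k v (mm n c d) := by
    intro p
    by_cases hp : p ∈ P
    · obtain ⟨h1, h2⟩ := mem_filter.1 hp
      obtain ⟨v, hv⟩ := h p h2 (by have := mem_range.1 h1; omega)
      exact ⟨v, fun _ => hv⟩
    · exact ⟨0, fun hh => absurd hh hp⟩
  choose v hv using h'
  obtain ⟨h4, ⟨x, y, hxy⟩, hb⟩ := assemble (L := 0) P (fun p hp => (mem_filter.1 hp).2)
    (mem_filter.2 ⟨mem_range.2 (by omega), Nat.prime_two⟩) (fun _ => k) (fun _ => k) v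
    (ι := Unit) (fun _ => mm n c d) (fun p hp _ => hv p hp)
  obtain ⟨b, hb1, hb2, hb3⟩ := hb ()
  set q₁ := ∏ p ∈ P, p ^ (k - v p) with hq₁
  set G := ∏ p ∈ P, p ^ v p with hG
  have hq0 : q₁ ≠ 0 := prod_ne_zero_iff.2 fun p hp => pow_ne_zero _ (mem_filter.1 hp).2.ne_zero
  obtain ⟨r, -, hr, hrb⟩ := Nat.forall_exists_prime_gt_and_zmodEq 0 hq0 hb3
  have hr4 : r % 4 ≠ 3 := by
    have h4' : ((4 : ℕ) : ℤ) ∣ (q₁ : ℤ) := Int.natCast_dvd_natCast.2 h4
    have := (h4'.trans hrb.dvd)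
    push_cast at this
    omega
  have := Fact.mk hr
  obtain ⟨z, w, hzw⟩ := Nat.Prime.sq_add_sq hr4
  obtain ⟨A, B, hAB⟩ := Nat.sq_add_sq_mul hxy hzw.symm
  have hGq : G * q₁ = ∏ p ∈ P, p ^ k := by
    rw [hG, hq₁, ← prod_mul_distrib]
    refine prod_congr rfl fun p hp => ?_
    rw [← pow_add, Nat.add_sub_cancel' (hv p hp).1]
  have hqd : q ∣ G * q₁ := hGq ▸ Local_dvd hq hk
  refine ⟨A, B, c, d, hc, Nat.modEq_iff_dvd.2 ?_⟩
  have e1 : ((A ^ 2 + B ^ 2 + 3 ^ c + 5 ^ d : ℕ) : ℤ) - n = -((G : ℤ) * (b - r)) := by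
    have e2 : ((A ^ 2 + B ^ 2 : ℕ) : ℤ) = (G : ℤ) * r := by rw [← hAB]; push_cast; ring
    unfold mm at hb1
    push_cast at e2 ⊢
    linear_combination e2 - hb1
  rw [e1, dvd_neg]
  refine (Int.natCast_dvd_natCast.2 hqd).trans ?_
  push_cast
  exact mul_dvd_mul_left _ hrb.dvd

theorem fin_two {k : ℕ} (hk : 8 ≤ k) {m : ℤ}
    (h : m % 4 = 1 ∨ m % 8 = 2 ∨ m % 16 = 4 ∨ m % 32 = 8) : ∃ v, Fin' 0 2 k k v m := by
  rcases h with h | h | h | h
  · exact ⟨0, Local_two0 (by omega) h⟩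
  · exact ⟨1, Local_two1 (by omega) h⟩
  · refine ⟨2, by omega, by omega, ?_, fun _ => ⟨by omega, ?_⟩, by omega,
      fun _ => ⟨by omega, by omega, ?_⟩, by omega⟩ <;> norm_num <;> omega
  · refine ⟨3, by omega, by omega, ?_, fun _ => ⟨by omega, ?_⟩, by omega,
      fun _ => ⟨by omega, by omega, ?_⟩, by omega⟩ <;> norm_num <;> omega

theorem loc_of_good {q n : ℕ} (hq : 0 < q) (h : Good q (q + 2) n) : Loc q n := by
  obtain ⟨c, d, hc, -, ⟨h2, h3⟩, h⟩ := h
  refine loc_of_fin (k := 8 * (q + 2)) (c := c) (d := d) hq (by omega) (by omega) fun p hp hy => ?_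
  by_cases e2 : p = 2
  · subst e2
    exact fin_two (by omega) h2
  have hp0 : ¬ p ≤ 0 := by have := hp.pos; omega
  by_cases h4 : p % 4 = 3
  · have hm : ¬ (p : ℤ) ∣ mm n c d := by
      by_cases e3 : p = 3
      · subst e3
        push_cast
        omega
      · have h5 : 5 < p := by omega
        refine h p (mem_filter.2 ⟨mem_range.2 (by omega), ⟨hp, h4, h5⟩, fun r _ hd => ?_⟩)
        have h6 := Nat.le_of_dvd (by omega) (LL_two hp h5)
        have h7 := Nat.le_of_dvd (LL_pos hp h5) hd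
        omega
    exact ⟨0, by omega, by omega, by simp, fun hh => ⟨hh, by simpa using hm⟩, fun _ => by simp,
      fun hh => absurd hh e2, fun hh => absurd hh hp0⟩
  · obtain ⟨v, hv, hd', hn⟩ := Local_val p (8 * (q + 2)) (mm n c d)
    exact ⟨v, hv, hv, hd', fun hh => ⟨hh, hn hh⟩, fun hh => absurd hh h4, fun hh => absurd hh e2,
      fun hh => absurd hh hp0⟩

theorem density {φ : ℕ → ℝ} {δ δ' : ℝ} (h0 : ∀ l, 0 ≤ φ l)
    (hS : ∀ l, l.Prime → 3 ≤ l → St l (φ l)) (hδ : ∀ y, ∑ i ∈ range y, φ (i + 3) ≤ δ)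
    (hδ' : δ < δ') :
    ∀ᶠ x : ℕ in atTop, (((range x).filter fun n => ¬ Rep n).card : ℝ) ≤ δ' * x := by
  have hε : 0 < (δ' - δ) / 2 := by linarith
  have hδ0 : 0 ≤ δ := by simpa using hδ 0
  obtain ⟨q, hq, h⟩ := main hε
  set M := MM q (q + 2) with hM
  have hM0 : 0 < M := MM_pos _ _
  have hMR : (0 : ℝ) < M := by exact_mod_cast hM0
  have hB : (((range M).filter fun n => ¬ Good q (q + 2) n).card : ℝ) ≤ δ * M := by
    have h1 := (stages (q := q) h0 hS q).trans (hδ q)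
    rw [div_le_iff₀ hMR] at h1
    refine le_trans (le_of_eq ?_) h1
    unfold BB
    rw [card_filter]
    push_cast
    exact sum_congr rfl fun n _ => by by_cases hh : Good q (q + 2) n <;> simp [hh]
  filter_upwards [h, (tendsto_natCast_atTop_atTop (R := ℝ)).eventually_ge_atTop
    (δ * M / ((δ' - δ) / 2))] with x hx hx2
  rw [div_le_iff₀ hε] at hx2
  have h1 := card_per hM0 (fun n => ¬ Good q (q + 2) n)
    (fun n hn hg => hn (hg.modEq (Nat.mod_modEq n M))) x
  have h2 : ((range x).filter fun n => ¬ Rep n) ⊆ ((range x).filter fun n => Loc q n ∧ ¬ Rep n) ∪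
      ((range x).filter fun n => ¬ Good q (q + 2) n) := by
    intro n hn
    obtain ⟨a1, a2⟩ := mem_filter.1 hn
    by_cases hg : Good q (q + 2) n
    · exact mem_union_left _ (mem_filter.2 ⟨a1, loc_of_good hq hg, a2⟩)
    · exact mem_union_right _ (mem_filter.2 ⟨a1, hg⟩)
  have h3 := (card_le_card h2).trans (card_union_le _ _)
  have h4 : (M : ℝ) * ((x / M : ℕ) : ℝ) ≤ x := by exact_mod_cast Nat.mul_div_le x M
  have h5 : (((range x).filter fun n => ¬ Good q (q + 2) n).card : ℝ) ≤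
      δ * M * (((x / M : ℕ) : ℝ) + 1) := by
    refine le_trans ?_ (mul_le_mul_of_nonneg_right hB (by positivity))
    exact_mod_cast h1
  have h6 : (((range x).filter fun n => ¬ Rep n).card : ℝ) ≤
      ((range x).filter fun n => Loc q n ∧ ¬ Rep n).card +
        ((range x).filter fun n => ¬ Good q (q + 2) n).card := by exact_mod_cast h3
  nlinarith [mul_le_mul_of_nonneg_left h4 hδ0]

end Pool.Agent.MP_c903c4_nt.X
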