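import Pool.Agent.MP_c903c4_nt.X.Small
import Pool.Agent.MP_c903c4_nt.X.ToLoc

/-!
The numerical values at all stages.
-/

open Finset Filter
open scoped Classical

noncomputable section

namespace Pool.Agent.MP_c903c4_nt.X

/-- Upper bounds for the reciprocal fourth roots. -/
def a4 (r : ℕ) : ℝ :=
  if r = 3 then 0.76 else if r = 5 then 0.669 else if r = 7 then 0.615 else if r = 11 then 0.55
  else if r = 13 then 0.527 else if r = 17 then 0.493 else 0.479

theorem a4_ok {r : ℕ} (hr : r ∈ Pr 19) : f4 r ≤ a4 r ∧ a4 r < 1 := by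
  have h : Pr 19 = {3, 5, 7, 11, 13, 17, 19} := by
    unfold Pr
    decide +kernel
  rw [h] at hr
  simp only [mem_insert, mem_singleton] at hr
  rcases hr with rfl | rfl | rfl | rfl | rfl | rfl | rfl <;>
    exact ⟨f4_le (by norm_num [a4]) (by norm_num [a4]), by norm_num [a4]⟩

theorem tail_a4 {l : ℕ} (hl : l ∈ Pr 19) (S : Finset ℕ) (hS : ∀ p ∈ S, Cl l p ∧ 15728640 ≤ p) :
    ∑ p ∈ S, (1 : ℝ) / p ≤ 0.000511 * a4 l * ∏ r ∈ Pr l, (1 - a4 r)⁻¹ :=
  tail_sum (mem_filter.1 hl).2.pos a4 (fun r hr => a4_ok (by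
    obtain ⟨h1, h2⟩ := mem_filter.1 hr
    have h3 := mem_Icc.1 h1
    have h4 := mem_Icc.1 (mem_filter.1 hl).1
    exact mem_filter.2 ⟨mem_Icc.2 ⟨h3.1, h3.2.trans h4.2⟩, h2⟩)) (a4_ok hl).1 S hS

theorem tail3 (p : ℕ) (hp : Cl 3 p) (h : 15728640 ≤ p) : 3 ^ 2 ∣ LL p := by
  by_contra hn
  have h1 : LL p ∣ 3 := by
    refine (Nat.dvd_iff_prime_pow_dvd_dvd _ _).2 fun r j hr hj => ?_
    rcases Nat.eq_zero_or_pos j with rfl | hj0
    · simp
    have h1 : r ∣ LL p := (dvd_pow_self r hj0.ne').trans hj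
    have h2 := hp.2.2 r hr h1
    have h3 : r ≠ 2 := fun e => LL_odd hp.1 (e ▸ h1)
    have h4 := hr.two_le
    obtain rfl : r = 3 := by omega
    have h5 : j = 1 := by
      by_contra h6
      exact hn ((pow_dvd_pow _ (by omega)).trans hj)
    simp [h5]
  have h2 := fiber_card (L := LL p) (B := p) (LL_pos hp.1.1 hp.1.2.2) {p} (by simpa using hp.1)
  have h3 := Nat.pow_le_pow_right (by norm_num : 0 < 9) (Nat.le_of_dvd (by norm_num) h1)
  simp only [card_singleton, pow_one] at h2
  omega

theorem st3 : St 3 ((1 / 10 ^ 8 : ℚ) : ℝ) :=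
  st_small (V := 1) (t := 14) (E := 2) (e0 := 2)
    (τ := 60) (T := 162 / 10 ^ 5) (by norm_num) (by decide +kernel) (by norm_num) (by norm_num)
    (by norm_num) tail3
    (fun S hS => (tail_a4 (by unfold Pr; decide +kernel) S hS).trans (by
      rw [show Pr 3 = {3} by unfold Pr; decide +kernel]
      norm_num [a4]))
    (by norm_num) (by norm_num) (by decide +kernel)

theorem st5 : St 5 ((6 / 10 ^ 6 : ℚ) : ℝ) :=
  st_small (V := 4782969) (t := 9) (E := 2) (e0 := 1)
    (τ := 241 / 100) (T := 431 / 10 ^ 5) (by norm_num) (by decide +kernel) (by norm_num) (by norm_num)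
    (by norm_num) (fun _ hp _ => by simpa using hp.2.1)
    (fun S hS => (tail_a4 (by unfold Pr; decide +kernel) S hS).trans (by
      rw [show Pr 5 = {3, 5} by unfold Pr; decide +kernel]
      norm_num [a4]))
    (by norm_num) (by norm_num) (by decide +kernel)

theorem st7 : St 7 ((3 / 10 ^ 7 : ℚ) : ℝ) :=
  st_small (V := 9341736328125) (t := 8) (E := 1) (e0 := 1)
    (τ := 33) (T := 103 / 10 ^ 4) (by norm_num) (by decide +kernel) (by norm_num) (by norm_num)
    (by norm_num) (fun _ hp _ => by simpa using hp.2.1)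
    (fun S hS => (tail_a4 (by unfold Pr; decide +kernel) S hS).trans (by
      rw [show Pr 7 = {3, 5, 7} by unfold Pr; decide +kernel]
      norm_num [a4]))
    (by norm_num) (by norm_num) (by decide +kernel)

theorem st11 : St 11 ((1 / 10 ^ 9 : ℚ) : ℝ) :=
  st_small (V := 53853250926111328125) (t := 6) (E := 1) (e0 := 1)
    (τ := 25) (T := 205 / 10 ^ 4) (by norm_num) (by decide +kernel) (by norm_num) (by norm_num)
    (by norm_num) (fun _ hp _ => by simpa using hp.2.1)
    (fun S hS => (tail_a4 (by unfold Pr; decide +kernel) S hS).trans (by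
      rw [show Pr 11 = {3, 5, 7, 11} by unfold Pr; decide +kernel]
      norm_num [a4]))
    (by norm_num) (by norm_num) (by decide +kernel)

theorem st13 : St 13 ((1 / 10 ^ 9 : ℚ) : ℝ) :=
  st_small (V := 95404319063912710564453125) (t := 6) (E := 1) (e0 := 1)
    (τ := 16) (T := 414 / 10 ^ 4) (by norm_num) (by decide +kernel) (by norm_num) (by norm_num)
    (by norm_num) (fun _ hp _ => by simpa using hp.2.1)
    (fun S hS => (tail_a4 (by unfold Pr; decide +kernel) S hS).trans (by
      rw [show Pr 13 = {3, 5, 7, 11, 13} by unfold Pr; decide +kernel]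
      norm_num [a4]))
    (by norm_num) (by norm_num) (by decide +kernel)

theorem st17 : St 17 ((1 / 10 ^ 9 : ℚ) : ℝ) :=
  st_small (V := 460498425896565446566897423828125) (t := 5) (E := 1) (e0 := 1)
    (τ := 9) (T := 764 / 10 ^ 4) (by norm_num) (by decide +kernel) (by norm_num) (by norm_num)
    (by norm_num) (fun _ hp _ => by simpa using hp.2.1)
    (fun S hS => (tail_a4 (by unfold Pr; decide +kernel) S hS).trans (by
      rw [show Pr 17 = {3, 5, 7, 11, 13, 17} by unfold Pr; decide +kernel]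
      norm_num [a4]))
    (by norm_num) (by norm_num) (by decide +kernel)

theorem st19 : St 19 ((3 / 10 ^ 8 : ℚ) : ℝ) :=
  st_small (V := 653841913498219725266135275504330078125) (t := 5) (E := 1) (e0 := 1)
    (τ := 5) (T := 1424 / 10 ^ 4) (by norm_num) (by decide +kernel) (by norm_num) (by norm_num)
    (by norm_num) (fun _ hp _ => by simpa using hp.2.1)
    (fun S hS => (tail_a4 (by unfold Pr; decide +kernel) S hS).trans (by
      rw [show Pr 19 = {3, 5, 7, 11, 13, 17, 19} by unfold Pr; decide +kernel]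
      norm_num [a4]))
    (by norm_num) (by norm_num) (by decide +kernel)

/-- The loss allowed at stage l. -/
def ph (l : ℕ) : ℝ :=
  if l = 3 then 1 / 10 ^ 8 else if l = 5 then 6 / 10 ^ 6 else if l = 7 then 3 / 10 ^ 7
  else if l < 23 then 3 / 10 ^ 8 else 0.54 ^ l

theorem St.mono {l : ℕ} {φ ψ : ℝ} (h : St l φ) (hψ : φ ≤ ψ) : St l ψ := by
  obtain ⟨E, τ, e, h1, h2, h3⟩ := h
  exact ⟨E, τ, e, h1, h2, fun S hS => (h3 S hS).trans
    (mul_le_mul_of_nonneg_right hψ (by positivity))⟩

theorem st_all (l : ℕ) (hp : l.Prime) (h3 : 3 ≤ l) : St l (ph l) := by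
  by_cases h : l < 23
  · have h6 : l ∈ [3, 5, 7, 11, 13, 17, 19] := by
      interval_cases l <;> first | decide | exact absurd hp (by norm_num)
    simp only [List.mem_cons, List.not_mem_nil, or_false] at h6
    rcases h6 with rfl | rfl | rfl | rfl | rfl | rfl | rfl
    · exact st3.mono (by norm_num [ph])
    · exact st5.mono (by norm_num [ph])
    · exact st7.mono (by norm_num [ph])
    · exact st11.mono (by norm_num [ph])
    · exact st13.mono (by norm_num [ph])
    · exact st17.mono (by norm_num [ph])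
    · exact st19.mono (by norm_num [ph])
  · refine (st_large hp (by omega)).mono (le_of_eq ?_)
    unfold ph
    rw [if_neg (by omega), if_neg (by omega), if_neg (by omega), if_neg h]

theorem ph_nonneg (l : ℕ) : 0 ≤ ph l := by
  unfold ph
  split_ifs <;> positivity

theorem ph_sum (y : ℕ) : ∑ i ∈ range y, ph (i + 3) ≤ 9 / 10 ^ 6 := by
  have h : ∀ j, ∑ i ∈ range (20 + j), ph (i + 3) ≤ 9 / 10 ^ 6 - 0.54 ^ (23 + j) / 0.46 := by
    intro j
    induction j with
    | zero => norm_num [sum_range_succ, ph]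
    | succ j ih =>
      rw [← add_assoc, sum_range_succ]
      have e : ph (20 + j + 3) = 0.54 ^ (23 + j) := by
        unfold ph
        rw [if_neg (by omega), if_neg (by omega), if_neg (by omega), if_neg (by omega)]
        congr 1
        omega
      rw [e, ← add_assoc, pow_succ (0.54 : ℝ)]
      generalize (0.54 : ℝ) ^ (23 + j) = z at ih ⊢
      have e2 : z * 0.54 / 0.46 = z / 0.46 - z := by ring
      linarith
  refine le_trans (sum_le_sum_of_subset_of_nonneg (range_subset_range.2 (by omega : y ≤ 20 + y))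
    fun i _ _ => ph_nonneg _) ((h y).trans (sub_le_self _ (by positivity)))

theorem final : ∀ᶠ x : ℕ in atTop,
    (((range x).filter fun n => ¬ Rep n).card : ℝ) ≤ 1 / 10 ^ 5 * x :=
  density ph_nonneg st_all ph_sum (by norm_num)

end Pool.Agent.MP_c903c4_nt.X
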