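import Pool.Agent.MP_c903c4_nt.X.Lists

/-!
The search, part 0.
-/

namespace Pool.Agent.MP_c903c4_nt.X

theorem t0 : tree VV l0 12 0 = true := by decide +kernel

theorem t1 : tree VV l1 12 1 = true := by decide +kernel

theorem t2 : tree VV l2 12 2 = true := by decide +kernel

theorem t3 : tree VV l3 12 3 = true := by decide +kernel

theorem t4 : tree VV l4 12 4 = true := by decide +kernel

theorem t5 : tree VV l5 12 5 = true := by decide +kernel

theorem t6 : tree VV l6 12 6 = true := by decide +kernel

theorem t7 : tree VV l7 12 7 = true := by decide +kernel

theorem t8 : tree VV l8 12 8 = true := by decide +kernel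

theorem t9 : tree VV l9 12 9 = true := by decide +kernel

theorem t10 : tree VV l10 12 10 = true := by decide +kernel

theorem t11 : tree VV l11 12 11 = true := by decide +kernel

theorem t12 : tree VV l12 12 12 = true := by decide +kernel

theorem t13 : tree VV l13 12 13 = true := by decide +kernel

theorem t14 : tree VV l14 12 14 = true := by decide +kernel

theorem t15 : tree VV l15 12 15 = true := by decide +kernel

end Pool.Agent.MP_c903c4_nt.X
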