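import Pool.Agent.MP_c903c4_nt.X.Lists

/-!
The search, part 1.
-/

namespace Pool.Agent.MP_c903c4_nt.X

theorem t16 : tree VV l16 12 16 = true := by decide +kernel

theorem t17 : tree VV l17 12 17 = true := by decide +kernel

theorem t18 : tree VV l18 12 18 = true := by decide +kernel

theorem t19 : tree VV l19 12 19 = true := by decide +kernel

theorem t20 : tree VV l20 12 20 = true := by decide +kernel

theorem t21 : tree VV l21 12 21 = true := by decide +kernel

theorem t22 : tree VV l22 12 22 = true := by decide +kernel

theorem t23 : tree VV l23 12 23 = true := by decide +kernel

theorem t24 : tree VV l24 12 24 = true := by decide +kernel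

theorem t25 : tree VV l25 12 25 = true := by decide +kernel

theorem t26 : tree VV l26 12 26 = true := by decide +kernel

theorem t27 : tree VV l27 12 27 = true := by decide +kernel

theorem t28 : tree VV l28 12 28 = true := by decide +kernel

theorem t29 : tree VV l29 12 29 = true := by decide +kernel

theorem t30 : tree VV l30 12 30 = true := by decide +kernel

theorem t31 : tree VV l31 12 31 = true := by decide +kernel

end Pool.Agent.MP_c903c4_nt.X
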