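import Pool.Agent.MP_c903c4_nt.X.Lists

/-!
The search, part 2.
-/

namespace Pool.Agent.MP_c903c4_nt.X

theorem t32 : tree VV l32 12 32 = true := by decide +kernel

theorem t33 : tree VV l33 12 33 = true := by decide +kernel

theorem t34 : tree VV l34 12 34 = true := by decide +kernel

theorem t35 : tree VV l35 12 35 = true := by decide +kernel

theorem t36 : tree VV l36 12 36 = true := by decide +kernel

theorem t37 : tree VV l37 12 37 = true := by decide +kernel

theorem t38 : tree VV l38 12 38 = true := by decide +kernel

theorem t39 : tree VV l39 12 39 = true := by decide +kernel

theorem t40 : tree VV l40 12 40 = true := by decide +kernel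

theorem t41 : tree VV l41 12 41 = true := by decide +kernel

theorem t42 : tree VV l42 12 42 = true := by decide +kernel

theorem t43 : tree VV l43 12 43 = true := by decide +kernel

theorem t44 : tree VV l44 12 44 = true := by decide +kernel

theorem t45 : tree VV l45 12 45 = true := by decide +kernel

theorem t46 : tree VV l46 12 46 = true := by decide +kernel

theorem t47 : tree VV l47 12 47 = true := by decide +kernel

end Pool.Agent.MP_c903c4_nt.X
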