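import Pool.Agent.MP_c903c4_nt.X.Lists

/-!
The search, part 3.
-/

namespace Pool.Agent.MP_c903c4_nt.X

theorem t48 : tree VV l48 12 48 = true := by decide +kernel

theorem t49 : tree VV l49 12 49 = true := by decide +kernel

theorem t50 : tree VV l50 12 50 = true := by decide +kernel

theorem t51 : tree VV l51 12 51 = true := by decide +kernel

theorem t52 : tree VV l52 12 52 = true := by decide +kernel

theorem t53 : tree VV l53 12 53 = true := by decide +kernel

theorem t54 : tree VV l54 12 54 = true := by decide +kernel

theorem t55 : tree VV l55 12 55 = true := by decide +kernel

theorem t56 : tree VV l56 12 56 = true := by decide +kernel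

theorem t57 : tree VV l57 12 57 = true := by decide +kernel

theorem t58 : tree VV l58 12 58 = true := by decide +kernel

theorem t59 : tree VV l59 12 59 = true := by decide +kernel

theorem t60 : tree VV l60 12 60 = true := by decide +kernel

theorem t61 : tree VV l61 12 61 = true := by decide +kernel

theorem t62 : tree VV l62 12 62 = true := by decide +kernel

theorem t63 : tree VV l63 12 63 = true := by decide +kernel

end Pool.Agent.MP_c903c4_nt.X
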