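import Pool.Agent.MP_c903c4_nt.X.Fiber

/-!
The primes beyond the searched range.
-/

open Finset
open scoped Classical

noncomputable section

namespace Pool.Agent.MP_c903c4_nt.X

/-- The reciprocal fourth root as a multiplicative map. -/
def f4 : ℕ →* ℝ where
  toFun n := 1 / Real.sqrt (Real.sqrt n)
  map_one' := by simp
  map_mul' m n := by
    push_cast
    rw [Real.sqrt_mul (Nat.cast_nonneg m), Real.sqrt_mul (Real.sqrt_nonneg _),
      one_div_mul_one_div]

theorem root4 (n : ℕ) : Real.sqrt (Real.sqrt n) ^ 4 = n := by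
  rw [show (4 : ℕ) = 2 * 2 from rfl, pow_mul, Real.sq_sqrt (Real.sqrt_nonneg _),
    Real.sq_sqrt (Nat.cast_nonneg _)]

theorem f4_nonneg (n : ℕ) : 0 ≤ f4 n := by
  show 0 ≤ 1 / Real.sqrt (Real.sqrt n)
  positivity

theorem f4_le {n : ℕ} {a : ℝ} (ha : 0 < a) (h : 1 ≤ a ^ 4 * n) : f4 n ≤ a := by
  show 1 / Real.sqrt (Real.sqrt n) ≤ a
  have h1 := root4 n
  have h0 : 0 ≤ Real.sqrt (Real.sqrt n) := Real.sqrt_nonneg _
  generalize Real.sqrt (Real.sqrt n) = x at h1 h0
  have h2 : 1 ≤ a * x := by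
    by_contra hn
    have := pow_lt_one₀ (mul_nonneg ha.le h0) (not_le.1 hn) (by norm_num : 4 ≠ 0)
    rw [mul_pow, h1] at this
    linarith
  have h3 : 0 < x := by
    by_contra hn
    have : x = 0 := le_antisymm (not_lt.1 hn) h0
    rw [this] at h2
    linarith
  rwa [div_le_iff₀ h3]

theorem log8 {z : ℝ} (hz : 0 ≤ z) : Real.log (1 + z ^ 8) ≤ 1.28 * z ^ 3 := by
  rcases le_total z 1 with h | h
  · have h1 := Real.log_le_sub_one_of_pos (show 0 < 1 + z ^ 8 by positivity)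
    have h2 : z ^ 8 ≤ z ^ 3 := pow_le_pow_of_le_one hz h (by norm_num)
    have h3 : 0 ≤ z ^ 3 := by positivity
    linarith
  · have h0 : 0 < z := by linarith
    have h1 : Real.log (1 + z ^ 8) ≤ Real.log 2 + 8 * Real.log z := by
      have := Real.log_le_log (by positivity) (show 1 + z ^ 8 ≤ 2 * z ^ 8 by
        linarith [one_le_pow₀ (n := 8) h])
      rw [Real.log_mul (by norm_num) (by positivity), Real.log_pow] at this
      exact_mod_cast this
    have h2 := Real.log_le_sub_one_of_pos (show 0 < z ^ 3 / (2 * 1.045) by positivity)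
    rw [Real.log_div (by positivity) (by norm_num), Real.log_pow,
      Real.log_mul (by norm_num) (by norm_num)] at h2
    have h3 := Real.log_le_sub_one_of_pos (show (0 : ℝ) < 1.045 by norm_num)
    have h4 := Real.log_two_lt_d9
    have h5 : 0 ≤ z ^ 3 := by positivity
    push_cast at h2
    have h6 : z ^ 3 / (2 * 1.045) ≤ 0.479 * z ^ 3 := by
      rw [div_le_iff₀ (by norm_num)]
      linarith
    linarith

theorem tail_fiber {L : ℕ} (hL : 0 < L) (F : Finset ℕ)
    (hF : ∀ p ∈ F, P3 p ∧ LL p = L ∧ 15728640 ≤ p) :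
    ∑ p ∈ F, (1 : ℝ) / p ≤ 0.000511 * f4 L := by
  have hc := fiber_card hL F hF
  have hc2 : 15 * F.card ≤ 2 * L := by
    refine (Nat.pow_le_pow_iff_right (by norm_num : 1 < 9)).1 ?_
    calc 9 ^ (15 * F.card) ≤ (15728640 ^ 2) ^ F.card := by
          rw [pow_mul]
          exact Nat.pow_le_pow_left (by norm_num) _
      _ = (15728640 ^ F.card) ^ 2 := by rw [← pow_mul, ← pow_mul, mul_comm]
      _ ≤ (9 ^ L) ^ 2 := Nat.pow_le_pow_left hc _
      _ = _ := by rw [← pow_mul, mul_comm]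
  have hc3 : (F.card : ℝ) ≤ 2 * L / 15 := by
    rw [le_div_iff₀ (by norm_num)]
    exact_mod_cast (by omega : F.card * 15 ≤ 2 * L)
  set A := max 15728640 (2 * L) with hA
  have hA1 : (15728640 : ℝ) ≤ A := by exact_mod_cast le_max_left _ _
  have hA2 : (2 * L : ℝ) ≤ A := by exact_mod_cast le_max_right _ _
  have h1 := fiber (A := A) hL (by omega) F (fun p hp => by
    obtain ⟨a1, a2, a3⟩ := hF p hp
    have h2 := Nat.le_of_dvd (by omega) (LL_two a1.1 a1.2.2)
    exact ⟨a1, a2, max_le a3 (by omega)⟩) hc3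
  refine h1.trans ?_
  show _ ≤ 0.000511 * (1 / Real.sqrt (Real.sqrt L))
  have hx4 := root4 L
  have hx : 0 < Real.sqrt (Real.sqrt L) :=
    Real.sqrt_pos.2 (Real.sqrt_pos.2 (by exact_mod_cast hL))
  generalize Real.sqrt (Real.sqrt L) = x at hx4 hx
  generalize (A : ℝ) = a at hA1 hA2
  rw [← hx4] at hA2 ⊢
  have h2 : 1 / a ≤ 0.0000034 * (1 / x) := by
    rw [mul_one_div, div_le_div_iff₀ (by linarith) hx]
    rcases le_total x 53.4 with h | h
    · linarith
    · have h3 : (53.4 : ℝ) ^ 3 ≤ x ^ 3 := pow_le_pow_left₀ (by norm_num) h 3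
      have h4 : (53.4 : ℝ) ^ 3 * x ≤ x ^ 3 * x := mul_le_mul_of_nonneg_right h3 hx.le
      have h5 : x ^ 3 * x = x ^ 4 := by ring
      norm_num at h4
      linarith
  have h3 : Real.log (1 + 4 * x ^ 4 * (2 * x ^ 4 / 15) / a) ≤ 1.28 * (0.1166 * x) ^ 3 := by
    refine le_trans (Real.log_le_log (by positivity) ?_) (log8 (by positivity))
    have h4 : 4 * x ^ 4 * (2 * x ^ 4 / 15) / a ≤ 4 * x ^ 4 * (2 * x ^ 4 / 15) / 15728640 := by
      gcongr
    have h5 : 0 ≤ x ^ 8 := by positivity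
    have h6 : 4 * x ^ 4 * (2 * x ^ 4 / 15) / 15728640 = 1 / 29491200 * x ^ 8 := by ring
    rw [mul_pow]
    norm_num at *
    linarith
  have h4 : Real.log (1 + 4 * x ^ 4 * (2 * x ^ 4 / 15) / a) / (4 * x ^ 4) ≤
      0.0005075 * (1 / x) := by
    rw [div_le_iff₀ (by positivity)]
    refine h3.trans ?_
    have e : 0.0005075 * (1 / x) * (4 * x ^ 4) = 0.00203 * x ^ 3 := by
      field_simp
      norm_num
    have h5 : 0 ≤ x ^ 3 := by positivity
    rw [e, mul_pow]
    norm_num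
    linarith
  have h5 : 0 ≤ 1 / x := by positivity
  linarith

theorem tail_sum {l : ℕ} (hl : 0 < l) (a : ℕ → ℝ) (ha : ∀ r ∈ Pr l, f4 r ≤ a r ∧ a r < 1)
    (hal : f4 l ≤ a l) (S : Finset ℕ) (hS : ∀ p ∈ S, Cl l p ∧ 15728640 ≤ p) :
    ∑ p ∈ S, (1 : ℝ) / p ≤ 0.000511 * a l * ∏ r ∈ Pr l, (1 - a r)⁻¹ := by
  refine (group S (fun p hp => (hS p hp).1) (fun m => 0.000511 * f4 l * f4 m) ?_).elim
    fun A ⟨hA, h⟩ => ?_
  · intro m hm F hF hL
    refine (tail_fiber (Nat.mul_pos hl hm.1) F fun p hp =>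
      ⟨(hS p (hF hp)).1.1, hL p hp, (hS p (hF hp)).2⟩).trans (le_of_eq ?_)
    rw [map_mul, mul_assoc]
  · refine h.trans ?_
    rw [← mul_sum]
    have h1 := Arith_euler f4 f4_nonneg (fun p hp => lt_of_le_of_lt
      (f4_le (a := 0.9) (by norm_num) (by
        have : (2 : ℝ) ≤ p := by exact_mod_cast hp.two_le
        norm_num
        linarith)) (by norm_num)) (Pr l) A (fun _ h => (mem_filter.1 h).2) fun m hm => (hA m hm).2
    have h2 : ∏ r ∈ Pr l, (1 - f4 r)⁻¹ ≤ ∏ r ∈ Pr l, (1 - a r)⁻¹ :=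
      prod_le_prod (fun r hr => inv_nonneg.2 (by linarith [ha r hr])) fun r hr =>
        inv_anti₀ (by linarith [ha r hr]) (by linarith [ha r hr])
    have h3 := f4_nonneg l
    exact mul_le_mul (by linarith) (h1.trans h2) (sum_nonneg fun m _ => f4_nonneg m) (by linarith)

end Pool.Agent.MP_c903c4_nt.X
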