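import Pool.Agent.MP_c903c4_nt.X.Surv
import Pool.Agent.MP_c903c4_nt.X.TailB
import Pool.Agent.MP_c903c4_nt.X.Large

/-!
The stages of the primes up to 19.
-/

open Finset
open scoped Classical

noncomputable section

namespace Pool.Agent.MP_c903c4_nt.X

/-- A certified exponent of l in the orders. -/
def ee (V l x E : ℕ) : ℕ := Nat.rec 0 (fun i r => cond (ts (V * l ^ i) x) r (i + 1)) E

/-- The factor contributed by x at stage l. -/
def fac (V l t E : ℕ) (τ : ℚ) (x : ℕ) : ℚ :=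
  cond (ts (V * l ^ t) x) (cond (ts V x) 1
    (1 + (τ ^ l ^ (E - ee V l x E) - 1) * ((l : ℚ) ^ ee V l x E / x))) 1

/-- V contains all small powers of the odd primes below l. -/
def HV (V l : ℕ) : Prop :=
  ∀ r ∈ [3, 5, 7, 11, 13, 17, 19], r < l → ∀ j < 24, r ^ j ≤ 7864320 → r ^ j ∣ V

instance (V l : ℕ) : Decidable (HV V l) := by unfold HV; infer_instance

theorem LL_le {p : ℕ} (hp : P3 p) (h0 : p < 15728640) : LL p ≤ 7864320 := by
  have := Nat.le_of_dvd (by have := hp.2.2; omega) (LL_two hp.1 hp.2.2)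
  omega

theorem dvdV {V l i p : ℕ} (hV : HV V l) (hl : l ≤ 20) (hp : P3 p) (h0 : p < 15728640)
    (hs : Sm l (LL p)) (hi : ¬ l ^ (i + 1) ∣ LL p) : LL p ∣ V * l ^ i := by
  refine (Nat.dvd_iff_prime_pow_dvd_dvd _ _).2 fun r j hr hj => ?_
  rcases Nat.eq_zero_or_pos j with rfl | hj0
  · simp
  have h1 : r ∣ LL p := (dvd_pow_self r hj0.ne').trans hj
  have h2 := hs r hr h1
  by_cases e : r = l
  · subst e
    refine Dvd.dvd.mul_left (pow_dvd_pow _ ?_) _
    by_contra hn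
    exact hi ((pow_dvd_pow _ (by omega)).trans hj)
  have h3 : r ≠ 2 := fun e => LL_odd hp (e ▸ h1)
  have h4 := (Nat.le_of_dvd (LL_pos hp.1 hp.2.2) hj).trans (LL_le hp h0)
  have h5 : j < 24 := by
    by_contra hn
    have := (Nat.pow_le_pow_left hr.two_le j).trans h4
    have h6 : 2 ^ 24 ≤ 2 ^ j := Nat.pow_le_pow_right (by norm_num) (by omega)
    omega
  have h6 : r ∈ [3, 5, 7, 11, 13, 17, 19] := by
    have h7 : r ≤ 20 := by omega
    interval_cases r <;> first | decide | exact absurd rfl h3 | exact absurd hr (by norm_num)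
  exact Dvd.dvd.mul_right (hV r h6 (by omega) j h5 h4) _

theorem ee_le (V l x E : ℕ) : ee V l x E ≤ E := by
  induction E with
  | zero => exact le_rfl
  | succ E ih =>
    change cond (ts (V * l ^ E) x) (ee V l x E) (E + 1) ≤ _
    cases ts (V * l ^ E) x
    · exact le_rfl
    · exact ih.trans (Nat.le_succ _)

theorem ee_dvd {V l p : ℕ} (hV : HV V l) (hl : l ≤ 20) (hp : P3 p) (h0 : p < 15728640)
    (hs : Sm l (LL p)) (E : ℕ) : l ^ ee V l p E ∣ LL p := by
  induction E with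
  | zero => exact one_dvd _
  | succ E ih =>
    change l ^ cond (ts (V * l ^ E) p) (ee V l p E) (E + 1) ∣ _
    cases h : ts (V * l ^ E) p
    · by_contra hn
      rw [(ts_iff hp.1 hp.2.2 _).2 (dvdV hV hl hp h0 hs hn)] at h
      exact absurd h (by simp)
    · exact ih

theorem fac_ge {V l t E : ℕ} {τ : ℚ} (hτ : 1 ≤ τ) (x : ℕ) : 1 ≤ fac V l t E τ x := by
  unfold fac
  cases ts (V * l ^ t) x
  · exact le_rfl
  cases ts V x
  · have : 0 ≤ τ ^ l ^ (E - ee V l x E) - 1 := sub_nonneg.2 (one_le_pow₀ hτ)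
    exact le_add_of_nonneg_right (by positivity)
  · exact le_rfl

theorem prod_list {g : ℕ → ℚ} (hg : ∀ x, 1 ≤ g x) (L : List ℕ) :
    ∀ S : Finset ℕ, (∀ x ∈ S, x ∈ L) → ∏ x ∈ S, g x ≤ (L.map g).prod := by
  induction L with
  | nil =>
    intro S hS
    have : S = ∅ := eq_empty_of_forall_notMem fun x hx => by simpa using hS x hx
    simp [this]
  | cons a L ih =>
    intro S hS
    have h1 := ih (S.erase a) fun x hx => by
      rcases List.mem_cons.1 (hS x (mem_of_mem_erase hx)) with h | h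
      · exact absurd h (ne_of_mem_erase hx)
      · exact h
    have h2 : ∏ x ∈ S, g x ≤ ∏ x ∈ insert a (S.erase a), g x :=
      prod_le_prod_of_subset_of_one_le (subset_insert_iff.2 Subset.rfl)
        (fun x _ => zero_le_one.trans (hg x)) fun x _ _ => hg x
    rw [prod_insert (notMem_erase _ _)] at h2
    rw [List.map_cons, List.prod_cons]
    exact h2.trans (mul_le_mul_of_nonneg_left h1 (zero_le_one.trans (hg a)))

theorem hVV : HV VV 20 := by decide +kernel

theorem st_small {V l t E e0 : ℕ} {τ T φ : ℚ} (hl : l ≤ 19) (hV : HV V l) (hlV : ¬ l ∣ V)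
    (ht : 7864320 < l ^ (t + 1)) (he0 : e0 ≤ E)
    (h0 : ∀ p, Cl l p → 15728640 ≤ p → l ^ e0 ∣ LL p)
    (hT : ∀ S : Finset ℕ, (∀ p ∈ S, Cl l p ∧ 15728640 ≤ p) → ∑ p ∈ S, (1 : ℝ) / p ≤ T)
    (hτ : 1 ≤ τ) (hy : (τ ^ l ^ (E - e0) - 1) * (l : ℚ) ^ e0 * T < 64)
    (hn : (LS.flatten.map (fac V l t E τ)).prod ≤
      φ * τ ^ l ^ E * (1 - (τ ^ l ^ (E - e0) - 1) * (l : ℚ) ^ e0 * T / 64) ^ 64) :
    St l φ := by
  have hτR : (1 : ℝ) ≤ τ := by exact_mod_cast hτ
  refine ⟨E, τ, fun p => if p < 15728640 then ee V l p E else e0, hτR, fun p hp => ?_,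
    fun S hS => ?_⟩
  · by_cases h : p < 15728640
    · simp only [if_pos h]
      exact ⟨ee_le _ _ _ _, ee_dvd hV (by omega) hp.1 h hp.2.2 E⟩
    · simp only [if_neg h]
      exact ⟨he0, h0 p hp (by omega)⟩
  rw [← prod_filter_mul_prod_filter_not S (fun p => p < 15728640)]
  have hlist : ∀ p ∈ S.filter (fun p => p < 15728640), p ∈ LS.flatten := fun p hp => by
    obtain ⟨a1, a2⟩ := mem_filter.1 hp
    obtain ⟨b1, -, b3⟩ := hS p a1
    have b4 := b1.2.2
    refine surv a2 b1.2.1 (fun h => ?_) (fun h => ?_) ((ts_iff b1.1 b4 _).2 ?_)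
    · have := (Nat.prime_dvd_prime_iff_eq Nat.prime_three b1.1).1 (Nat.dvd_of_mod_eq_zero h)
      omega
    · have := (Nat.prime_dvd_prime_iff_eq Nat.prime_five b1.1).1 (Nat.dvd_of_mod_eq_zero h)
      omega
    · simpa using dvdV (i := 0) hVV le_rfl b1 a2 (fun r hr hd => (b3 r hr hd).trans (by omega))
        fun h => LL_odd b1 (Dvd.dvd.trans (by norm_num) h)
  have h1 : ∏ p ∈ S.filter (fun p => p < 15728640), (1 + ((τ : ℝ) ^ l ^
      (E - if p < 15728640 then ee V l p E else e0) - 1) *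
        ((l : ℝ) ^ (if p < 15728640 then ee V l p E else e0) / p)) ≤
      ((LS.flatten.map (fac V l t E τ)).prod : ℚ) := by
    refine le_trans (le_of_eq ?_) (Rat.cast_le.2 (prod_list (fac_ge hτ) _ _ hlist))
    rw [Rat.cast_prod]
    refine prod_congr rfl fun p hp => ?_
    obtain ⟨a1, a2⟩ := mem_filter.1 hp
    obtain ⟨b1, b2, b3⟩ := hS p a1
    have c1 : ts (V * l ^ t) p = true := (ts_iff b1.1 b1.2.2 _).2
      (dvdV hV (by omega) b1 a2 b3 fun h => by
        have := (Nat.le_of_dvd (LL_pos b1.1 b1.2.2) h).trans (LL_le b1 a2)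
        omega)
    have c2 : ts V p = false := by
      cases h : ts V p
      · rfl
      · exact absurd (b2.trans ((ts_iff b1.1 b1.2.2 _).1 h)) hlV
    unfold fac
    rw [c1, c2, if_pos a2]
    simp
  set β : ℚ := (τ ^ l ^ (E - e0) - 1) * (l : ℚ) ^ e0 with hβ
  have hβ0 : (0 : ℝ) ≤ β := by
    have : 0 ≤ τ ^ l ^ (E - e0) - 1 := sub_nonneg.2 (one_le_pow₀ hτ)
    exact_mod_cast (by positivity : 0 ≤ β)
  have h2 : ∏ p ∈ S.filter (fun p => ¬ p < 15728640), (1 + ((τ : ℝ) ^ l ^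
      (E - if p < 15728640 then ee V l p E else e0) - 1) *
        ((l : ℝ) ^ (if p < 15728640 then ee V l p E else e0) / p)) ≤ Real.exp (β * T) := by
    refine le_trans (le_of_eq (prod_congr rfl fun p hp => ?_)) ((prod_exp _ hβ0).trans
      (Real.exp_le_exp.2 (mul_le_mul_of_nonneg_left (hT _ fun p hp =>
        ⟨hS p (mem_filter.1 hp).1, not_lt.1 (mem_filter.1 hp).2⟩) hβ0)))
    rw [if_neg (mem_filter.1 hp).2, hβ]
    push_cast
    ring
  have hyR : (β : ℝ) * T < 64 := by exact_mod_cast hy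
  have h3 := exp_up (y := β * T) (n := 64) (by exact_mod_cast hyR.le)
  have h4 : (((LS.flatten.map (fac V l t E τ)).prod : ℚ) : ℝ) ≤
      φ * τ ^ l ^ E * (1 - β * T / 64) ^ 64 := by exact_mod_cast hn
  have h5 : (0 : ℝ) < (1 - β * T / 64) ^ 64 := pow_pos (by linarith) _
  have h6 : (0 : ℝ) ≤ ((LS.flatten.map (fac V l t E τ)).prod : ℚ) := by
    have := prod_list (fac_ge (V := V) (l := l) (t := t) (E := E) hτ) LS.flatten ∅ (by simp)
    rw [prod_empty] at this
    exact_mod_cast zero_le_one.trans this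
  refine (mul_le_mul h1 h2 (prod_nonneg fun p _ => ?_) h6).trans ?_
  · have : (0 : ℝ) ≤ (τ : ℝ) ^ l ^ (E - if p < 15728640 then ee V l p E else e0) - 1 :=
      sub_nonneg.2 (one_le_pow₀ hτR)
    positivity
  · have h7 : (0 : ℝ) ≤ φ * τ ^ l ^ E := nonneg_of_mul_nonneg_left (h6.trans h4) h5
    push_cast at h3
    calc _ ≤ φ * τ ^ l ^ E * (1 - β * T / 64) ^ 64 * Real.exp (β * T) :=
          mul_le_mul_of_nonneg_right h4 (Real.exp_pos _).le
      _ = φ * τ ^ l ^ E * (Real.exp (β * T) * (1 - β * T / 64) ^ 64) := by ring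
      _ ≤ _ := mul_le_of_le_one_right h7 h3

end Pool.Agent.MP_c903c4_nt.X
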