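import Pool.Agent.MP_c903c4_nt.X.ChkOk
import Pool.Agent.MP_c903c4_nt.X.S0
import Pool.Agent.MP_c903c4_nt.X.S1
import Pool.Agent.MP_c903c4_nt.X.S2
import Pool.Agent.MP_c903c4_nt.X.S3

/-!
The outcome of the search.
-/

namespace Pool.Agent.MP_c903c4_nt.X

theorem all_t : ∀ i < 64, ∃ L ∈ LS, tree VV L 12 i = true := by
  intro i hi
  interval_cases i
  · exact ⟨l0, List.mem_of_getElem? (i := 0) rfl, t0⟩
  · exact ⟨l1, List.mem_of_getElem? (i := 1) rfl, t1⟩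
  · exact ⟨l2, List.mem_of_getElem? (i := 2) rfl, t2⟩
  · exact ⟨l3, List.mem_of_getElem? (i := 3) rfl, t3⟩
  · exact ⟨l4, List.mem_of_getElem? (i := 4) rfl, t4⟩
  · exact ⟨l5, List.mem_of_getElem? (i := 5) rfl, t5⟩
  · exact ⟨l6, List.mem_of_getElem? (i := 6) rfl, t6⟩
  · exact ⟨l7, List.mem_of_getElem? (i := 7) rfl, t7⟩
  · exact ⟨l8, List.mem_of_getElem? (i := 8) rfl, t8⟩
  · exact ⟨l9, List.mem_of_getElem? (i := 9) rfl, t9⟩
  · exact ⟨l10, List.mem_of_getElem? (i := 10) rfl, t10⟩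
  · exact ⟨l11, List.mem_of_getElem? (i := 11) rfl, t11⟩
  · exact ⟨l12, List.mem_of_getElem? (i := 12) rfl, t12⟩
  · exact ⟨l13, List.mem_of_getElem? (i := 13) rfl, t13⟩
  · exact ⟨l14, List.mem_of_getElem? (i := 14) rfl, t14⟩
  · exact ⟨l15, List.mem_of_getElem? (i := 15) rfl, t15⟩
  · exact ⟨l16, List.mem_of_getElem? (i := 16) rfl, t16⟩
  · exact ⟨l17, List.mem_of_getElem? (i := 17) rfl, t17⟩
  · exact ⟨l18, List.mem_of_getElem? (i := 18) rfl, t18⟩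
  · exact ⟨l19, List.mem_of_getElem? (i := 19) rfl, t19⟩
  · exact ⟨l20, List.mem_of_getElem? (i := 20) rfl, t20⟩
  · exact ⟨l21, List.mem_of_getElem? (i := 21) rfl, t21⟩
  · exact ⟨l22, List.mem_of_getElem? (i := 22) rfl, t22⟩
  · exact ⟨l23, List.mem_of_getElem? (i := 23) rfl, t23⟩
  · exact ⟨l24, List.mem_of_getElem? (i := 24) rfl, t24⟩
  · exact ⟨l25, List.mem_of_getElem? (i := 25) rfl, t25⟩
  · exact ⟨l26, List.mem_of_getElem? (i := 26) rfl, t26⟩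
  · exact ⟨l27, List.mem_of_getElem? (i := 27) rfl, t27⟩
  · exact ⟨l28, List.mem_of_getElem? (i := 28) rfl, t28⟩
  · exact ⟨l29, List.mem_of_getElem? (i := 29) rfl, t29⟩
  · exact ⟨l30, List.mem_of_getElem? (i := 30) rfl, t30⟩
  · exact ⟨l31, List.mem_of_getElem? (i := 31) rfl, t31⟩
  · exact ⟨l32, List.mem_of_getElem? (i := 32) rfl, t32⟩
  · exact ⟨l33, List.mem_of_getElem? (i := 33) rfl, t33⟩
  · exact ⟨l34, List.mem_of_getElem? (i := 34) rfl, t34⟩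
  · exact ⟨l35, List.mem_of_getElem? (i := 35) rfl, t35⟩
  · exact ⟨l36, List.mem_of_getElem? (i := 36) rfl, t36⟩
  · exact ⟨l37, List.mem_of_getElem? (i := 37) rfl, t37⟩
  · exact ⟨l38, List.mem_of_getElem? (i := 38) rfl, t38⟩
  · exact ⟨l39, List.mem_of_getElem? (i := 39) rfl, t39⟩
  · exact ⟨l40, List.mem_of_getElem? (i := 40) rfl, t40⟩
  · exact ⟨l41, List.mem_of_getElem? (i := 41) rfl, t41⟩
  · exact ⟨l42, List.mem_of_getElem? (i := 42) rfl, t42⟩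
  · exact ⟨l43, List.mem_of_getElem? (i := 43) rfl, t43⟩
  · exact ⟨l44, List.mem_of_getElem? (i := 44) rfl, t44⟩
  · exact ⟨l45, List.mem_of_getElem? (i := 45) rfl, t45⟩
  · exact ⟨l46, List.mem_of_getElem? (i := 46) rfl, t46⟩
  · exact ⟨l47, List.mem_of_getElem? (i := 47) rfl, t47⟩
  · exact ⟨l48, List.mem_of_getElem? (i := 48) rfl, t48⟩
  · exact ⟨l49, List.mem_of_getElem? (i := 49) rfl, t49⟩
  · exact ⟨l50, List.mem_of_getElem? (i := 50) rfl, t50⟩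
  · exact ⟨l51, List.mem_of_getElem? (i := 51) rfl, t51⟩
  · exact ⟨l52, List.mem_of_getElem? (i := 52) rfl, t52⟩
  · exact ⟨l53, List.mem_of_getElem? (i := 53) rfl, t53⟩
  · exact ⟨l54, List.mem_of_getElem? (i := 54) rfl, t54⟩
  · exact ⟨l55, List.mem_of_getElem? (i := 55) rfl, t55⟩
  · exact ⟨l56, List.mem_of_getElem? (i := 56) rfl, t56⟩
  · exact ⟨l57, List.mem_of_getElem? (i := 57) rfl, t57⟩
  · exact ⟨l58, List.mem_of_getElem? (i := 58) rfl, t58⟩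
  · exact ⟨l59, List.mem_of_getElem? (i := 59) rfl, t59⟩
  · exact ⟨l60, List.mem_of_getElem? (i := 60) rfl, t60⟩
  · exact ⟨l61, List.mem_of_getElem? (i := 61) rfl, t61⟩
  · exact ⟨l62, List.mem_of_getElem? (i := 62) rfl, t62⟩
  · exact ⟨l63, List.mem_of_getElem? (i := 63) rfl, t63⟩

theorem surv {x : ℕ} (hx : x < 15728640) (h4 : x % 4 = 3) (h3 : x % 3 ≠ 0) (h5 : x % 5 ≠ 0)
    (ht : ts VV x = true) : x ∈ LS.flatten := by
  obtain ⟨L, h1, h2⟩ := all_t (x / 60 / 2 ^ 12) (by omega)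
  exact List.mem_flatten.2 ⟨L, h1, tree_ok h4 h3 h5 ht 12 _ h2 rfl⟩

end Pool.Agent.MP_c903c4_nt.X
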